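import Pool.Agent.NPC.Defs

/-!
# Definitions: stable graphs, min-Cost-VERTEX-DEL, unique games, Unique Games Conjecture

Polynomial time (`PolyTime`), `NP` (`InNP`) and the coding `bits` of structured data by bit
strings are those of `Pool.Agent.NPC.Defs` (Turing machines of Mathlib).
-/

namespace Pool.Agent.NPC.H604

open Pool.Agent.NPC

/-! ### Matchings and stable graphs -/

/-- `M` is (the edge set of) a matching of `G`: a finite set of edges, no two of which share a
vertex. -/
def IsMatch {V : Type*} (G : SimpleGraph V) (M : Finset (Sym2 V)) : Prop :=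
  (∀ e ∈ M, e ∈ G.edgeSet) ∧ ∀ e ∈ M, ∀ f ∈ M, ∀ v, v ∈ e → v ∈ f → e = f

/-- The matching number `ν(G)`. -/
noncomputable def nu {V : Type*} (G : SimpleGraph V) : ℕ :=
  sSup {n | ∃ M, IsMatch G M ∧ M.card = n}

/-- `x` is a fractional matching of the (finite) graph `G`: nonnegative weights on the edges (`0` on
non-edges), with total weight at most `1` at every vertex. -/
def IsFrac {V : Type*} (G : SimpleGraph V) (x : Sym2 V → ℝ) : Prop :=
  (∀ e, 0 ≤ x e) ∧ (∀ e, e ∉ G.edgeSet → x e = 0) ∧ ∀ v, (∑ᶠ e ∈ {e : Sym2 V | v ∈ e}, x e) ≤ 1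

/-- The fractional matching number `ν_f(G)` of a finite graph: the largest total weight of a
fractional matching. -/
noncomputable def nuf {V : Type*} (G : SimpleGraph V) : ℝ :=
  sSup {r | ∃ x, IsFrac G x ∧ ∑ᶠ e, x e = r}

/-- `G` is stable: `ν(G) = ν_f(G)`. -/
def Stable {V : Type*} (G : SimpleGraph V) : Prop := (nu G : ℝ) = nuf G

/-! ### The optimisation problem -/

/-- The adjacency matrix of a graph on `{0, ..., n-1}`, as a list of rows. -/
noncomputable def adjMat {n : ℕ} (G : SimpleGraph (Fin n)) : List (List Bool) :=
  open Classical in List.ofFn fun i => List.ofFn fun j => decide (G.Adj i j)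

/-- `S` is a feasible solution of min-Cost-VERTEX-DEL: `G ∖ S` is stable. -/
def Feasible {n : ℕ} (G : SimpleGraph (Fin n)) (S : Finset (Fin n)) : Prop :=
  Stable (G.induce (↑S : Set (Fin n))ᶜ)

/-- The vertex costs take at most two values. -/
def TwoValued {n : ℕ} (c : Fin n → ℕ) : Prop := ∃ a b : ℕ, ∀ i, c i = a ∨ c i = b

/-- The function `A` on bit strings solves min-Cost-VERTEX-DEL within the factor `α` on all
instances whose vertex costs are natural numbers taking at most two values: on the code of the
adjacency matrix of `G` and of the list of costs (in binary) it returns the code of the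
characteristic vector of a feasible set `S` of cost at most `α` times the cost of any feasible
set. -/
def Approximates (α : ℝ) (A : List Bool → List Bool) : Prop :=
  ∀ (n : ℕ) (G : SimpleGraph (Fin n)) (c : Fin n → ℕ), TwoValued c →
    ∃ S : Finset (Fin n),
      A (bits (adjMat G, List.ofFn c)) = bits (List.ofFn fun i => decide (i ∈ S)) ∧
      Feasible G S ∧ ∀ S', Feasible G S' → ((∑ i ∈ S, c i : ℕ) : ℝ) ≤ α * ((∑ i ∈ S', c i : ℕ) : ℝ)

/-! ### Unique games -/

/-- A constraint: a left variable, a right variable and the list of the allowed pairs of labels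
(left variables and right variables have separate name spaces). -/
abbrev Con : Type := (ℕ × ℕ) × List (ℕ × ℕ)

/-- The number of constraints of the instance `cs` satisfied by the assignment of labels
`0, ..., k-1` given by `a` (left variables) and `b` (right variables). -/
def numSat {k : ℕ} (a b : ℕ → Fin k) (cs : List Con) : ℕ :=
  (Finset.univ.filter fun i : Fin cs.length =>
    ((a cs[i].1.1 : ℕ), (b cs[i].1.2 : ℕ)) ∈ cs[i].2).card

/-- The constraint is unique: its relation is the graph of a permutation of the `k` labels. -/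
def IsUnique (k : ℕ) (c : Con) : Prop :=
  ∃ π : Equiv.Perm (Fin k), ∀ x y : Fin k, ((x : ℕ), (y : ℕ)) ∈ c.2 ↔ π x = y

/-- It is `NP`-hard to distinguish the instances with `Yes` from those with `No`: every `NP`
language has a polynomial-time reduction to this gap problem. -/
def GapHard (Yes No : List Con → Prop) : Prop :=
  ∀ L : Set (List Bool), InNP L → ∃ f : List Bool → List Con,
    PolyTime (fun x => bits (f x)) ∧ (∀ x ∈ L, Yes (f x)) ∧ ∀ x ∉ L, No (f x)

/-- The Unique Games Conjecture: for all `ε, δ > 0` there is a number `k` of labels for which it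
is `NP`-hard to distinguish unique games in which some assignment satisfies at least a fraction
`1 - ε` of the constraints from those in which every assignment satisfies at most a fraction
`δ`. -/
def UGC : Prop :=
  ∀ ε δ : ℝ, 0 < ε → 0 < δ → ∃ k : ℕ, GapHard
    (fun cs => cs ≠ [] ∧ (∀ c ∈ cs, IsUnique k c) ∧
      ∃ a b : ℕ → Fin k, (1 - ε) * cs.length ≤ numSat a b cs)
    (fun cs => cs ≠ [] ∧ (∀ c ∈ cs, IsUnique k c) ∧
      ∀ a b : ℕ → Fin k, (numSat a b cs : ℝ) ≤ δ * cs.length)

/-- `P ≠ NP`: some language in `NP` is not decided by any polynomial-time function. -/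
def PNeNP : Prop :=
  ∃ L : Set (List Bool), InNP L ∧
    ¬ ∃ V : List Bool → List Bool, PolyTime V ∧ ∀ x, x ∈ L ↔ V x = [true]

end Pool.Agent.NPC.H604
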