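import Pool.Agent.H604R2.VDStab

/-!
# The gadget: from label cover / unique games to vertex deletion
-/

namespace Pool.Agent.NPC.H604

open Finset

/-- A label cover instance with `m` constraints and `k` labels: the names of the two variables of
each constraint (the left and the right variables have separate name spaces), and the relation. -/
structure LC (m k : ℕ) where
  /-- the two variables of a constraint -/
  nm : Fin m → Bool → ℕ
  /-- the relation of a constraint -/
  R : Fin m → Fin k → Fin k → Bool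

variable {m k t : ℕ}

/-- `A` satisfies constraint `i` -/
def LC.Sat (I : LC m k) (A : Bool → ℕ → Fin k) (i : Fin m) : Prop :=
  I.R i (A false (I.nm i false)) (A true (I.nm i true)) = true

instance (I : LC m k) (A : Bool → ℕ → Fin k) : DecidablePred (I.Sat A) := fun i => by
  unfold LC.Sat; infer_instance

/-- The vertices of the gadget. -/
abbrev Vtx (m k t : ℕ) : Type :=
  (Fin m × Fin 3) ⊕ ((Fin m × Fin k × Fin k) ⊕ (Fin m × Bool × Fin k × Fin t))

/-- triangle vertices -/
abbrev tv (i : Fin m) (s : Fin 3) : Vtx m k t := Sum.inl (i, s)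
/-- connectors -/
abbrev cv (i : Fin m) (a b : Fin k) : Vtx m k t := Sum.inr (Sum.inl (i, a, b))
/-- singles -/
abbrev sv (i : Fin m) (d : Bool) (c : Fin k) (j : Fin t) : Vtx m k t :=
  Sum.inr (Sum.inr (i, d, c, j))

/-- The (oriented) edges of the gadget. -/
def LC.rel (I : LC m k) (t : ℕ) : Vtx m k t → Vtx m k t → Prop
  | .inl (i, s), .inl (i', s') => i = i' ∧ s ≠ s'
  | .inl (i, s), .inr (.inl (i', a, b)) => i = i' ∧ s = 0 ∧ I.R i a b = true
  | .inr (.inl (i, a, b)), .inr (.inr (i', d, c, _)) =>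
      I.R i a b = true ∧ I.nm i' d = I.nm i d ∧ c = if d then b else a
  | _, _ => False

/-- The gadget graph. -/
def LC.gad (I : LC m k) (t : ℕ) : SimpleGraph (Vtx m k t) := SimpleGraph.fromRel (I.rel t)

/-- The costs. -/
def cst (B : ℕ) : Vtx m k t → ℕ
  | .inl _ => B
  | .inr (.inl _) => B
  | .inr (.inr _) => 1

section adj

variable (I : LC m k) {i i' : Fin m} {s s' : Fin 3} {a b a' b' c c' : Fin k} {d d' : Bool}
  {j j' : Fin t}

theorem adj_tt : (I.gad t).Adj (tv i s) (tv i' s') ↔ i = i' ∧ s ≠ s' := by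
  simp only [LC.gad, SimpleGraph.fromRel_adj, LC.rel, ne_eq, Sum.inl.injEq, Prod.mk.injEq]
  constructor
  · rintro ⟨_, ⟨h1, h2⟩ | ⟨h1, h2⟩⟩
    · exact ⟨h1, h2⟩
    · exact ⟨h1.symm, fun h => h2 h.symm⟩
  · rintro ⟨h1, h2⟩
    exact ⟨fun h => h2 h.2, Or.inl ⟨h1, h2⟩⟩

theorem adj_tc : (I.gad t).Adj (tv i s) (cv i' a b) ↔ i = i' ∧ s = 0 ∧ I.R i a b = true := by
  simp [LC.gad, SimpleGraph.fromRel_adj, LC.rel]

theorem adj_ct : (I.gad t).Adj (cv i' a b) (tv i s) ↔ i = i' ∧ s = 0 ∧ I.R i a b = true := by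
  simp [LC.gad, SimpleGraph.fromRel_adj, LC.rel]

theorem adj_ts : ¬ (I.gad t).Adj (tv i s) (sv i' d c j) := by
  simp [LC.gad, SimpleGraph.fromRel_adj, LC.rel]

theorem adj_st : ¬ (I.gad t).Adj (sv i' d c j) (tv i s) := by
  simp [LC.gad, SimpleGraph.fromRel_adj, LC.rel]

theorem adj_cc : ¬ (I.gad t).Adj (cv i a b) (cv i' a' b') := by
  simp [LC.gad, SimpleGraph.fromRel_adj, LC.rel]

theorem adj_ss : ¬ (I.gad t).Adj (sv i d c j) (sv i' d' c' j') := by
  simp [LC.gad, SimpleGraph.fromRel_adj, LC.rel]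

theorem adj_cs : (I.gad t).Adj (cv i a b) (sv i' d c j) ↔
    I.R i a b = true ∧ I.nm i' d = I.nm i d ∧ c = if d then b else a := by
  simp [LC.gad, SimpleGraph.fromRel_adj, LC.rel]

theorem adj_sc : (I.gad t).Adj (sv i' d c j) (cv i a b) ↔
    I.R i a b = true ∧ I.nm i' d = I.nm i d ∧ c = if d then b else a := by
  simp [LC.gad, SimpleGraph.fromRel_adj, LC.rel]

end adj

open Classical in
/-- the cost of a set of vertices of the gadget, split -/
theorem cost_eq (B : ℕ) (S : Finset (Vtx m k t)) : ∑ v ∈ S, cst B v =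
    (∑ i : Fin m, ∑ s : Fin 3, if tv i s ∈ S then B else 0) +
    ((∑ i : Fin m, ∑ a : Fin k, ∑ b : Fin k, if cv i a b ∈ S then B else 0) +
     (∑ i : Fin m, ∑ d : Bool, ∑ c : Fin k, ∑ j : Fin t, if sv i d c j ∈ S then 1 else 0)) := by
  have h : ∑ v ∈ S, cst B v = ∑ v : Vtx m k t, if v ∈ S then cst B v else 0 := by
    rw [← Finset.sum_filter]
    congr 1
    ext v
    simp
  rw [h]
  simp only [Fintype.sum_sum_type, Fintype.sum_prod_type, cst]

/-! ### The YES case -/

section yes

variable (I : LC m k) (A : Bool → ℕ → Fin k)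

open Classical in
/-- the solution given by an assignment -/
noncomputable def solY (t : ℕ) : Finset (Vtx m k t) := Finset.univ.filter fun v =>
  match v with
  | .inl (i, s) => s = 0 ∧ ¬ I.Sat A i
  | .inr (.inl _) => False
  | .inr (.inr (i, d, c, _)) => c = A d (I.nm i d)

theorem mem_solY_t {i : Fin m} {s : Fin 3} : tv i s ∈ solY I A t ↔ s = 0 ∧ ¬ I.Sat A i := by
  simp [solY]

theorem mem_solY_c {i : Fin m} {a b : Fin k} : ¬ cv i a b ∈ solY I A t := by
  simp [solY]

theorem mem_solY_s {i : Fin m} {d : Bool} {c : Fin k} {j : Fin t} :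
    sv i d c j ∈ solY I A t ↔ c = A d (I.nm i d) := by
  simp [solY]

open Classical in
/-- the vertex cover -/
noncomputable def covY (t : ℕ) : Finset (Vtx m k t) := Finset.univ.filter fun v =>
  match v with
  | .inl (i, s) => (s = 0 ∧ I.Sat A i) ∨ s = 1
  | .inr (.inl (i, a, b)) => I.R i a b = true ∧
      ¬ (a = A false (I.nm i false) ∧ b = A true (I.nm i true))
  | .inr (.inr _) => False

theorem mem_covY_t {i : Fin m} {s : Fin 3} :
    tv i s ∈ covY I A t ↔ (s = 0 ∧ I.Sat A i) ∨ s = 1 := by
  simp [covY]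

theorem mem_covY_c {i : Fin m} {a b : Fin k} : cv i a b ∈ covY I A t ↔ I.R i a b = true ∧
    ¬ (a = A false (I.nm i false) ∧ b = A true (I.nm i true)) := by
  simp [covY]

theorem mem_covY_s {i : Fin m} {d : Bool} {c : Fin k} {j : Fin t} :
    ¬ sv i d c j ∈ covY I A t := by
  simp [covY]

open Classical in
/-- the partners of the vertices of the cover -/
noncomputable def parY (ht : k ≤ t) : Vtx m k t → Vtx m k t
  | .inl (i, s) => if s = 0 then cv i (A false (I.nm i false)) (A true (I.nm i true)) else tv i 2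
  | .inr (.inl (i, a, b)) =>
      if a = A false (I.nm i false) then sv i true b (Fin.castLE ht a)
      else sv i false a (Fin.castLE ht b)
  | .inr (.inr x) => .inr (.inr x)

theorem yes_stable (ht : k ≤ t) : Stable ((I.gad t).induce (↑(solY I A t) : Set (Vtx m k t))ᶜ) := by
  refine stable_of_partner _ (covY I A t) (parY I A ht) ?_ ?_ ?_
  · rintro (⟨i, s⟩ | ⟨i, a, b⟩ | ⟨i, d, c, j⟩) hw
    · rw [mem_covY_t] at hw
      rcases hw with ⟨rfl, hsat⟩ | rfl
      · have hp : parY I A ht (tv i 0) = cv i (A false (I.nm i false)) (A true (I.nm i true)) := by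
          simp [parY]
        rw [hp]
        refine ⟨?_, ?_, ?_, ?_⟩
        · rw [Finset.mem_coe, mem_solY_t]; tauto
        · rw [Finset.mem_coe]; exact mem_solY_c I A
        · rw [adj_tc]; exact ⟨rfl, rfl, hsat⟩
        · rw [mem_covY_c]; tauto
      · have hp : parY I A ht (tv i 1) = tv i 2 := by
          simp [parY]
        rw [hp]
        refine ⟨?_, ?_, ?_, ?_⟩
        · rw [Finset.mem_coe, mem_solY_t]; simp
        · rw [Finset.mem_coe, mem_solY_t]; simp
        · rw [adj_tt]; simp
        · rw [mem_covY_t]; simp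
    · rw [mem_covY_c] at hw
      by_cases ha : a = A false (I.nm i false)
      · have hb : b ≠ A true (I.nm i true) := fun h => hw.2 ⟨ha, h⟩
        have hp : parY I A ht (cv i a b) = sv i true b (Fin.castLE ht a) := by
          simp [parY, ← ha]
        rw [hp]
        refine ⟨?_, ?_, ?_, ?_⟩
        · rw [Finset.mem_coe]; exact mem_solY_c I A
        · rw [Finset.mem_coe, mem_solY_s]; exact hb
        · rw [adj_cs]; simp [hw.1]
        · exact mem_covY_s I A
      · have hp : parY I A ht (cv i a b) = sv i false a (Fin.castLE ht b) := by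
          simp [parY, ha]
        rw [hp]
        refine ⟨?_, ?_, ?_, ?_⟩
        · rw [Finset.mem_coe]; exact mem_solY_c I A
        · rw [Finset.mem_coe, mem_solY_s]; exact ha
        · rw [adj_cs]; simp [hw.1]
        · exact mem_covY_s I A
    · exact absurd hw (mem_covY_s I A)
  · rintro (⟨i, s⟩ | ⟨i, a, b⟩ | ⟨i, d, c, j⟩) hw (⟨i', s'⟩ | ⟨i', a', b'⟩ | ⟨i', d', c', j'⟩) hw' h
    · rw [mem_covY_t] at hw hw'
      simp only [parY] at h
      rcases hw with ⟨rfl, hsat⟩ | rfl <;> rcases hw' with ⟨rfl, hsat'⟩ | rfl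
      · simp only [if_true, Sum.inr.injEq, Sum.inl.injEq, Prod.mk.injEq] at h
        rw [h.1]
      · simp at h
      · simp at h
      · simp at h
        rw [h]
    · rw [mem_covY_t] at hw
      simp only [parY] at h
      rcases hw with ⟨rfl, hsat⟩ | rfl <;> split_ifs at h <;> simp at h
    · exact absurd hw' (mem_covY_s I A)
    · rw [mem_covY_t] at hw'
      simp only [parY] at h
      rcases hw' with ⟨rfl, hsat⟩ | rfl <;> split_ifs at h <;> simp at h
    · simp only [parY] at h
      split_ifs at h with h1 h2 h2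
      · simp only [Sum.inr.injEq, Prod.mk.injEq, true_and] at h
        obtain ⟨rfl, rfl, h3⟩ := h
        rw [Fin.castLE_inj.1 h3]
      · simp at h
      · simp at h
      · simp only [Sum.inr.injEq, Prod.mk.injEq, true_and] at h
        obtain ⟨rfl, rfl, h3⟩ := h
        rw [Fin.castLE_inj.1 h3]
    · exact absurd hw' (mem_covY_s I A)
    · exact absurd hw (mem_covY_s I A)
    · exact absurd hw (mem_covY_s I A)
    · exact absurd hw (mem_covY_s I A)
  · rintro (⟨i, s⟩ | ⟨i, a, b⟩ | ⟨i, d, c, j⟩) (⟨i', s'⟩ | ⟨i', a', b'⟩ | ⟨i', d', c', j'⟩) hu hv hadj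
    · rw [Finset.mem_coe, mem_solY_t] at hu hv
      rw [adj_tt] at hadj
      rw [mem_covY_t, mem_covY_t]
      obtain ⟨rfl, hne⟩ := hadj
      by_cases h : I.Sat A i
      · fin_cases s <;> fin_cases s' <;> simp_all
      · have h1 : s ≠ 0 := fun h' => hu ⟨h', h⟩
        have h2 : s' ≠ 0 := fun h' => hv ⟨h', h⟩
        fin_cases s <;> fin_cases s' <;> simp_all
    · rw [Finset.mem_coe, mem_solY_t] at hu
      rw [adj_tc] at hadj
      left
      rw [mem_covY_t]
      left
      refine ⟨hadj.2.1, ?_⟩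
      by_contra h
      exact hu ⟨hadj.2.1, h⟩
    · exact absurd hadj (adj_ts I)
    · rw [Finset.mem_coe, mem_solY_t] at hv
      rw [adj_ct] at hadj
      right
      rw [mem_covY_t]
      left
      refine ⟨hadj.2.1, ?_⟩
      by_contra h
      exact hv ⟨hadj.2.1, h⟩
    · exact absurd hadj (adj_cc I)
    · rw [Finset.mem_coe, mem_solY_s] at hv
      rw [adj_cs] at hadj
      left
      rw [mem_covY_c]
      refine ⟨hadj.1, ?_⟩
      rintro ⟨h1, h2⟩
      apply hv
      rw [hadj.2.2, hadj.2.1]
      cases d' <;> simp [h1, h2]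
    · exact absurd hadj (adj_st I)
    · rw [Finset.mem_coe, mem_solY_s] at hu
      rw [adj_sc] at hadj
      right
      rw [mem_covY_c]
      refine ⟨hadj.1, ?_⟩
      rintro ⟨h1, h2⟩
      apply hu
      rw [hadj.2.2, hadj.2.1]
      cases d <;> simp [h1, h2]
    · exact absurd hadj (adj_ss I)

open Classical in
theorem yes_cost (B : ℕ) : ∑ v ∈ solY I A t, cst B v =
    B * (Finset.univ.filter fun i => ¬ I.Sat A i).card + 2 * m * t := by
  rw [cost_eq]
  have h1 : (∑ i : Fin m, ∑ s : Fin 3, if tv i s ∈ solY I A t then B else 0) =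
      B * (Finset.univ.filter fun i => ¬ I.Sat A i).card := by
    simp only [mem_solY_t]
    rw [Finset.card_filter, Finset.mul_sum]
    refine Finset.sum_congr rfl fun i _ => ?_
    rw [Finset.sum_eq_single 0]
    · by_cases h : I.Sat A i <;> simp [h]
    · intro s _ hs
      simp [hs]
    · intro h; simp at h
  have h2 : (∑ i : Fin m, ∑ a : Fin k, ∑ b : Fin k, if cv i a b ∈ solY I A t then B else 0) = 0 := by
    simp [mem_solY_c]
  have h3 : (∑ i : Fin m, ∑ d : Bool, ∑ c : Fin k, ∑ j : Fin t,
      if sv i d c j ∈ solY I A t then 1 else 0) = 2 * m * t := by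
    simp only [mem_solY_s, Finset.sum_const, Finset.card_univ, Fintype.card_fin, smul_eq_mul,
      mul_ite, mul_one, mul_zero, Finset.sum_ite_eq', Finset.mem_univ, if_true, Fintype.card_bool]
    ring
  rw [h1, h2, h3, zero_add]

end yes

/-! ### The NO case -/

section no

variable (I : LC m k) (S : Finset (Vtx m k t))

open Classical in
/-- the remaining copies of `(w, c)` on side `d` -/
noncomputable def rem (d : Bool) (w : ℕ) (c : Fin k) : Finset (Fin m × Fin t) :=
  Finset.univ.filter fun p => I.nm p.1 d = w ∧ sv p.1 d c p.2 ∉ S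

/-- Key lemma: if no triangle vertex of constraint `i` is deleted and the rest is
stable, then for some allowed pair of labels nearly all copies of both labels are deleted. -/
theorem key_lemma (hst : Stable ((I.gad t).induce (↑S : Set (Vtx m k t))ᶜ)) (i : Fin m)
    (hT : ∀ s, tv i s ∉ S) :
    ∃ a b, I.R i a b = true ∧ (rem I S false (I.nm i false) a).card ≤ m * k * k ∧
      (rem I S true (I.nm i true) b).card ≤ m * k * k := by
  classical
  by_contra hcon
  push Not at hcon
  have hmem : ∀ {x : Vtx m k t}, x ∈ (↑S : Set (Vtx m k t))ᶜ ↔ x ∉ S := by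
    intro x; simp
  refine not_stable_of_triangle (G := (I.gad t).induce (↑S : Set (Vtx m k t))ᶜ)
    (t₀ := ⟨tv i 0, hmem.2 (hT 0)⟩) (t₁ := ⟨tv i 1, hmem.2 (hT 1)⟩)
    (t₂ := ⟨tv i 2, hmem.2 (hT 2)⟩) ?_ ?_ ?_ ?_ ?_ ?_ hst
  · show (I.gad t).Adj (tv i 0) (tv i 1)
    rw [adj_tt]; simp
  · show (I.gad t).Adj (tv i 0) (tv i 2)
    rw [adj_tt]; simp
  · show (I.gad t).Adj (tv i 1) (tv i 2)
    rw [adj_tt]; simp
  · rintro ⟨⟨i', s'⟩ | ⟨i', a, b⟩ | ⟨i', d, c, j⟩, hy⟩ hadj
    · have h : (I.gad t).Adj (tv i 1) (tv i' s') := hadj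
      rw [adj_tt] at h
      obtain ⟨rfl, h⟩ := h
      simp only [Subtype.mk.injEq, Sum.inl.injEq, Prod.mk.injEq, true_and]
      fin_cases s' <;> simp_all
    · have h : (I.gad t).Adj (tv i 1) (cv i' a b) := hadj
      rw [adj_tc] at h
      simp at h
    · exact absurd (show (I.gad t).Adj (tv i 1) (sv i' d c j) from hadj) (adj_ts I)
  · rintro ⟨⟨i', s'⟩ | ⟨i', a, b⟩ | ⟨i', d, c, j⟩, hy⟩ hadj
    · have h : (I.gad t).Adj (tv i 2) (tv i' s') := hadj
      rw [adj_tt] at h
      obtain ⟨rfl, h⟩ := h
      simp only [Subtype.mk.injEq, Sum.inl.injEq, Prod.mk.injEq, true_and]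
      fin_cases s' <;> simp_all
    · have h : (I.gad t).Adj (tv i 2) (cv i' a b) := hadj
      rw [adj_tc] at h
      simp at h
    · exact absurd (show (I.gad t).Adj (tv i 2) (sv i' d c j) from hadj) (adj_ts I)
  · rintro M hM ⟨⟨i', s'⟩ | ⟨i', a, b⟩ | ⟨i', d, c, j⟩, hy⟩ hadj h1 h2
    · exfalso
      have h : (I.gad t).Adj (tv i 0) (tv i' s') := hadj
      rw [adj_tt] at h
      obtain ⟨rfl, h⟩ := h
      simp only [ne_eq, Subtype.mk.injEq, Sum.inl.injEq, Prod.mk.injEq, true_and] at h1 h2
      fin_cases s' <;> simp_all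
    · have h : (I.gad t).Adj (tv i 0) (cv i' a b) := hadj
      rw [adj_tc] at h
      obtain ⟨rfl, -, hR⟩ := h
      -- a side with many remaining copies
      obtain ⟨d, l, hl, hbig⟩ : ∃ (d : Bool) (l : Fin k), (l = if d then b else a) ∧
          m * k * k < (rem I S d (I.nm i d) l).card := by
        by_cases hf : (rem I S false (I.nm i false) a).card ≤ m * k * k
        · exact ⟨true, b, by simp, hcon a b hR hf⟩
        · exact ⟨false, a, by simp, not_le.1 hf⟩
      by_contra hno
      push Not at hno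
      have hadjs : ∀ p ∈ rem I S d (I.nm i d) l,
          (I.gad t).Adj (cv i a b) (sv p.1 d l p.2) := by
        intro p hp
        simp only [rem, Finset.mem_filter, Finset.mem_univ, true_and] at hp
        rw [adj_cs]
        exact ⟨hR, hp.1, hl⟩
      have hpart : ∀ p ∈ rem I S d (I.nm i d) l, ∃ (q : Fin m × Fin k × Fin k)
          (hp : sv p.1 d l p.2 ∈ (↑S : Set (Vtx m k t))ᶜ)
          (hq : (Sum.inr (Sum.inl q) : Vtx m k t) ∈ (↑S : Set (Vtx m k t))ᶜ),
          s((⟨sv p.1 d l p.2, hp⟩ : ↥((↑S : Set (Vtx m k t))ᶜ)),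
            (⟨Sum.inr (Sum.inl q), hq⟩ : ↥((↑S : Set (Vtx m k t))ᶜ))) ∈ M := by
        intro p hp
        have hp' := hp
        simp only [rem, Finset.mem_filter, Finset.mem_univ, true_and] at hp'
        have hpS : sv p.1 d l p.2 ∈ (↑S : Set (Vtx m k t))ᶜ := hmem.2 hp'.2
        have h3 : ¬ Exposed M (⟨sv p.1 d l p.2, hpS⟩ : ↥((↑S : Set (Vtx m k t))ᶜ)) := by
          intro hex
          have := hno _ hex (hadjs p hp)
          simp at this
        simp only [Exposed, not_forall, not_not] at h3
        obtain ⟨e, he, hpe⟩ := h3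
        obtain ⟨⟨y, hy'⟩, rfl⟩ := Sym2.mem_iff_exists.1 hpe
        have h4 : (I.gad t).Adj (sv p.1 d l p.2) y := hM.1 _ he
        rcases y with ⟨i', s'⟩ | ⟨i', a', b'⟩ | ⟨i', d', c', j'⟩
        · exact absurd h4 (adj_st I)
        · exact ⟨(i', a', b'), hpS, hy', he⟩
        · exact absurd h4 (adj_ss I)
      have : Nonempty (Fin m × Fin k × Fin k) := ⟨(i, a, b)⟩
      choose! f hf using hpart
      have hinj : Set.InjOn f (rem I S d (I.nm i d) l) := by
        intro p hp p' hp' hpp
        obtain ⟨g1, g2, g3⟩ := hf p hp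
        obtain ⟨g1', g2', g3'⟩ := hf p' hp'
        have h5 := hM.2 _ g3 _ g3' (⟨Sum.inr (Sum.inl (f p)), g2⟩)
          (Sym2.mem_mk_right _ _) (by
            have : (⟨Sum.inr (Sum.inl (f p)), g2⟩ : ↥((↑S : Set (Vtx m k t))ᶜ)) =
              ⟨Sum.inr (Sum.inl (f p')), g2'⟩ := by
              apply Subtype.ext
              simp [hpp]
            rw [this]
            exact Sym2.mem_mk_right _ _)
        rw [Sym2.eq_iff] at h5
        rcases h5 with h5 | h5
        · have := h5.1
          simp only [Subtype.mk.injEq, Sum.inr.injEq, Prod.mk.injEq, true_and] at this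
          exact Prod.ext this.1 this.2
        · have := h5.1
          simp at this
      have hcard := Finset.card_le_card_of_injOn (s := rem I S d (I.nm i d) l)
        (t := Finset.univ) f (fun _ _ => Finset.mem_coe.2 (Finset.mem_univ _)) hinj
      rw [Finset.card_univ, Fintype.card_prod, Fintype.card_prod, Fintype.card_fin,
        Fintype.card_fin, ← mul_assoc] at hcard
      omega
    · exact absurd (show (I.gad t).Adj (tv i 0) (sv i' d c j) from hadj) (adj_ts I)

/-- Pure counting: grouping the constraints by names. -/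
theorem count_names (n : Fin m → ℕ) (y : Fin m → ℕ) (hy : ∀ i, y i ≤ t) (Q : ℕ) (htQ : t = 2 * Q)
    (P : ℕ → Prop) [DecidablePred P]
    (hP : ∀ w, P w → ∑ i ∈ Finset.univ.filter (fun i => n i = w), (t - y i) ≤ Q) :
    t * (Finset.univ.filter fun i => P (n i)).card ≤ 2 * ∑ i, y i := by
  classical
  have h1 : t * (Finset.univ.filter fun i => P (n i)).card =
      ∑ w ∈ Finset.univ.image n, ∑ i ∈ Finset.univ.filter (fun i => n i = w),
        if P (n i) then t else 0 := by
    rw [Finset.sum_fiberwise_of_maps_to (fun i _ => Finset.mem_image_of_mem n (Finset.mem_univ i))]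
    rw [← Finset.sum_filter, Finset.sum_const, smul_eq_mul, mul_comm]
  have h2 : 2 * ∑ i, y i = ∑ w ∈ Finset.univ.image n,
      ∑ i ∈ Finset.univ.filter (fun i => n i = w), 2 * y i := by
    rw [Finset.sum_fiberwise_of_maps_to (fun i _ => Finset.mem_image_of_mem n (Finset.mem_univ i))]
    rw [Finset.mul_sum]
  rw [h1, h2]
  refine Finset.sum_le_sum fun w hw => ?_
  by_cases hPw : P w
  · have h3 := hP w hPw
    have h4 : ∑ i ∈ Finset.univ.filter (fun i => n i = w), (if P (n i) then t else 0) =
        ∑ i ∈ Finset.univ.filter (fun i => n i = w), t := by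
      refine Finset.sum_congr rfl fun i hi => ?_
      rw [if_pos]
      rw [(Finset.mem_filter.1 hi).2]
      exact hPw
    have h5 : ∑ i ∈ Finset.univ.filter (fun i => n i = w), t =
        ∑ i ∈ Finset.univ.filter (fun i => n i = w), (t - y i) +
        ∑ i ∈ Finset.univ.filter (fun i => n i = w), y i := by
      rw [← Finset.sum_add_distrib]
      refine Finset.sum_congr rfl fun i hi => ?_
      have := hy i
      omega
    obtain ⟨i0, -, hi0⟩ := Finset.mem_image.1 hw
    have h6 : t ≤ ∑ i ∈ Finset.univ.filter (fun i => n i = w), t :=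
      Finset.single_le_sum (f := fun _ => t) (fun _ _ => Nat.zero_le _)
        (Finset.mem_filter.2 ⟨Finset.mem_univ i0, hi0⟩)
    rw [h4, ← Finset.mul_sum]
    omega
  · have h4 : ∑ i ∈ Finset.univ.filter (fun i => n i = w), (if P (n i) then t else 0) = 0 := by
      refine Finset.sum_eq_zero fun i hi => ?_
      rw [if_neg]
      rw [(Finset.mem_filter.1 hi).2]
      exact hPw
    rw [h4]
    exact Nat.zero_le _

open Classical in
/-- the list of labels of the name `w` on side `d` -/
noncomputable def lst (d : Bool) (w : ℕ) : Finset (Fin k) :=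
  Finset.univ.filter fun c => (rem I S d w c).card ≤ m * k * k

open Classical in
theorem lists_bound (htQ : t = 2 * (m * k * k)) :
    t * ∑ i, ∑ d, (lst I S d (I.nm i d)).card ≤
      2 * ∑ i : Fin m, ∑ d : Bool, ∑ c : Fin k, ∑ j : Fin t, (if sv i d c j ∈ S then 1 else 0) := by
  have h1 : t * ∑ i, ∑ d, (lst I S d (I.nm i d)).card =
      ∑ d, ∑ c : Fin k, t * (Finset.univ.filter fun i : Fin m =>
        (rem I S d (I.nm i d) c).card ≤ m * k * k).card := by
    rw [Finset.sum_comm, Finset.mul_sum]
    refine Finset.sum_congr rfl fun d _ => ?_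
    rw [← Finset.mul_sum]
    congr 1
    simp only [lst, Finset.card_filter]
    rw [Finset.sum_comm]
  have h2 : 2 * ∑ i : Fin m, ∑ d : Bool, ∑ c : Fin k, ∑ j : Fin t,
      (if sv i d c j ∈ S then 1 else 0) =
      ∑ d : Bool, ∑ c : Fin k, 2 * ∑ i : Fin m, ∑ j : Fin t,
        (if sv i d c j ∈ S then 1 else 0) := by
    rw [Finset.sum_comm, Finset.mul_sum]
    refine Finset.sum_congr rfl fun d _ => ?_
    rw [Finset.sum_comm, Finset.mul_sum]
  rw [h1, h2]
  refine Finset.sum_le_sum fun d _ => Finset.sum_le_sum fun c _ => ?_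
  refine count_names (fun i => I.nm i d) (fun i => ∑ j : Fin t, (if sv i d c j ∈ S then 1 else 0))
    (fun i => ?_) (m * k * k) htQ (fun w => (rem I S d w c).card ≤ m * k * k) (fun w hw => ?_)
  · rw [← Finset.card_filter]
    exact (Finset.card_filter_le _ _).trans (by simp)
  · refine le_trans (le_of_eq ?_) hw
    rw [rem, Finset.card_filter, Fintype.sum_prod_type, Finset.sum_filter]
    refine Finset.sum_congr rfl fun i _ => ?_
    by_cases hi : I.nm i d = w
    · simp only [hi, if_true, true_and]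
      have h3 : ∑ j : Fin t, (if sv i d c j ∉ S then 1 else 0) +
          ∑ j : Fin t, (if sv i d c j ∈ S then 1 else 0) = t := by
        rw [← Finset.sum_add_distrib]
        have : ∀ j : Fin t, ((if sv i d c j ∉ S then 1 else 0) +
            (if sv i d c j ∈ S then 1 else 0)) = 1 := by
          intro j
          by_cases h : sv i d c j ∈ S <;> simp [h]
        rw [Finset.sum_congr rfl fun j _ => this j]
        simp
      omega
    · simp [hi]

/-- enumerating short lists -/
theorem exists_enum (L : ℕ) (d : Fin k) (R : Finset (Fin k)) :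
    ∃ en : Fin L → Fin k, R.card ≤ L → ∀ c ∈ R, ∃ p, en p = c := by
  refine ⟨fun p => R.toList.getD p.1 d, fun hR c hc => ?_⟩
  obtain ⟨n, hn, hc'⟩ := List.getElem_of_mem (Finset.mem_toList.2 hc)
  have hn' : n < L := by
    rw [Finset.length_toList] at hn
    omega
  refine ⟨⟨n, hn'⟩, ?_⟩
  show R.toList.getD n d = c
  rw [List.getD_eq_getElem _ _ hn, hc']

/-- The NO case: a cheap solution yields a good assignment. -/
theorem no_case (g : ℕ) (hg : 0 < g) (hm : 0 < m) (hk : 0 < k) (htQ : t = 2 * (m * k * k))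
    (hst : Stable ((I.gad t).induce (↑S : Set (Vtx m k t))ᶜ))
    (hcost : ∑ v ∈ S, cst (4 * g * t) v ≤ g * t * m) :
    ∃ A : Bool → ℕ → Fin k, m ≤ 128 * (g * g) * (Finset.univ.filter fun i => I.Sat A i).card := by
  classical
  have ht : 0 < t := by
    rw [htQ]; positivity
  rw [cost_eq] at hcost
  set x1 := ∑ i : Fin m, ∑ s : Fin 3, (if tv i s ∈ S then 4 * g * t else 0) with hx1
  set x2 := ∑ i : Fin m, ∑ a : Fin k, ∑ b : Fin k, (if cv i a b ∈ S then 4 * g * t else 0) with hx2
  set x3 := ∑ i : Fin m, ∑ d : Bool, ∑ c : Fin k, ∑ j : Fin t, (if sv i d c j ∈ S then 1 else 0)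
    with hx3
  -- bad constraints
  let bad : Finset (Fin m) := Finset.univ.filter fun i => (∃ s, tv i s ∈ S) ∨ ∃ a b, cv i a b ∈ S
  have hbad : 4 * g * t * bad.card ≤ x1 + x2 := by
    rw [hx1, hx2, ← Finset.sum_add_distrib, mul_comm, ← smul_eq_mul, ← Finset.sum_const]
    refine le_trans (Finset.sum_le_sum (g := fun i => (∑ s : Fin 3, (if tv i s ∈ S then 4 * g * t
      else 0)) + ∑ a : Fin k, ∑ b : Fin k, (if cv i a b ∈ S then 4 * g * t else 0)) ?_)
      (Finset.sum_le_sum_of_subset (Finset.subset_univ bad))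
    intro i hi
    rcases (Finset.mem_filter.1 hi).2 with ⟨s, hs⟩ | ⟨a, b, hab⟩
    · refine le_trans ?_ (Nat.le_add_right _ _)
      refine le_trans (le_of_eq ?_) (Finset.single_le_sum
        (f := fun s : Fin 3 => if tv i s ∈ S then 4 * g * t else 0)
        (fun _ _ => Nat.zero_le _) (Finset.mem_univ s))
      simp [hs]
    · refine le_trans ?_ (Nat.le_add_left _ _)
      refine le_trans ?_ (Finset.single_le_sum
        (f := fun a : Fin k => ∑ b : Fin k, if cv i a b ∈ S then 4 * g * t else 0)
        (fun _ _ => Nat.zero_le _) (Finset.mem_univ a))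
      refine le_trans (le_of_eq ?_) (Finset.single_le_sum
        (f := fun b : Fin k => if cv i a b ∈ S then 4 * g * t else 0)
        (fun _ _ => Nat.zero_le _) (Finset.mem_univ b))
      simp [hab]
  have hbad' : 4 * bad.card ≤ m := by
    have h1 : (g * t) * (4 * bad.card) ≤ (g * t) * m := by
      calc (g * t) * (4 * bad.card) = 4 * g * t * bad.card := by ring
        _ ≤ x1 + x2 := hbad
        _ ≤ g * t * m := by omega
    exact Nat.le_of_mul_le_mul_left h1 (Nat.mul_pos hg ht)
  -- long lists
  have hlist := lists_bound I S htQ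
  rw [← hx3] at hlist
  have hsum : ∑ i, ∑ d, (lst I S d (I.nm i d)).card ≤ 2 * g * m := by
    have h1 : t * ∑ i, ∑ d, (lst I S d (I.nm i d)).card ≤ t * (2 * g * m) := by
      calc t * ∑ i, ∑ d, (lst I S d (I.nm i d)).card ≤ 2 * x3 := hlist
        _ ≤ 2 * (g * t * m) := by omega
        _ = t * (2 * g * m) := by ring
    exact Nat.le_of_mul_le_mul_left h1 ht
  let big : Finset (Fin m) := Finset.univ.filter fun i => ∃ d, 8 * g < (lst I S d (I.nm i d)).card
  have hbig : 4 * big.card ≤ m := by
    have h1 : 8 * g * big.card ≤ 2 * g * m := by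
      refine le_trans ?_ hsum
      rw [mul_comm, ← smul_eq_mul, ← Finset.sum_const]
      refine le_trans (Finset.sum_le_sum (g := fun i => ∑ d, (lst I S d (I.nm i d)).card) ?_)
        (Finset.sum_le_sum_of_subset (Finset.subset_univ big))
      intro i hi
      obtain ⟨d, hd⟩ := (Finset.mem_filter.1 hi).2
      exact hd.le.trans (Finset.single_le_sum
        (f := fun d => (lst I S d (I.nm i d)).card) (fun _ _ => Nat.zero_le _)
        (Finset.mem_univ d))
    have h2 : (2 * g) * (4 * big.card) ≤ (2 * g) * m := by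
      calc (2 * g) * (4 * big.card) = 8 * g * big.card := by ring
        _ ≤ _ := h1
    exact Nat.le_of_mul_le_mul_left h2 (by omega)
  -- good constraints
  let good : Finset (Fin m) := Finset.univ.filter fun i => i ∉ bad ∧ i ∉ big
  have hgood : m ≤ 2 * good.card := by
    have h1 : (Finset.univ : Finset (Fin m)) ⊆ good ∪ (bad ∪ big) := by
      intro i _
      simp only [Finset.mem_union, good, Finset.mem_filter, Finset.mem_univ, true_and]
      tauto
    have h2 := Finset.card_le_card h1
    rw [Finset.card_univ, Fintype.card_fin] at h2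
    have h3 := Finset.card_union_le good (bad ∪ big)
    have h4 := Finset.card_union_le bad big
    omega
  -- enumerations of the lists
  have hen : ∀ (d : Bool) (w : ℕ), ∃ en : Fin (8 * g) → Fin k, (lst I S d w).card ≤ 8 * g →
      ∀ c ∈ lst I S d w, ∃ p, en p = c := fun d w => exists_enum (8 * g) ⟨0, hk⟩ (lst I S d w)
  choose en hen using hen
  let A : Fin (8 * g) × Fin (8 * g) → Bool → ℕ → Fin k := fun pq d w =>
    if d then en d w pq.2 else en d w pq.1
  have hcov : good.card ≤ ∑ pq, (Finset.univ.filter fun i => I.Sat (A pq) i).card := by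
    have h1 : good.card ≤ ∑ i ∈ good, (Finset.univ.filter fun pq => I.Sat (A pq) i).card := by
      rw [Finset.card_eq_sum_ones]
      refine Finset.sum_le_sum fun i hi => ?_
      rw [Nat.one_le_iff_ne_zero, Finset.card_ne_zero]
      have hi' := (Finset.mem_filter.1 hi).2
      have hb : (∀ s, tv i s ∉ S) ∧ ∀ a b, cv i a b ∉ S := by
        have := hi'.1
        simp only [bad, Finset.mem_filter, Finset.mem_univ, true_and, not_or, not_exists] at this
        exact this
      have hl : ∀ d, (lst I S d (I.nm i d)).card ≤ 8 * g := by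
        have := hi'.2
        simp only [big, Finset.mem_filter, Finset.mem_univ, true_and, not_exists, not_lt] at this
        exact this
      obtain ⟨a, b, hR, ha, hb'⟩ := key_lemma I S hst i hb.1
      obtain ⟨p, hp⟩ := hen false (I.nm i false) (hl false) a (by simp [lst, ha])
      obtain ⟨q, hq⟩ := hen true (I.nm i true) (hl true) b (by simp [lst, hb'])
      refine ⟨(p, q), ?_⟩
      simp only [Finset.mem_filter, Finset.mem_univ, true_and, LC.Sat, A, if_true,
        Bool.false_eq_true, if_false, hp, hq]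
      exact hR
    refine h1.trans ?_
    refine (Finset.sum_le_sum_of_subset (Finset.subset_univ good)).trans (le_of_eq ?_)
    simp only [Finset.card_filter]
    rw [Finset.sum_comm]
  by_contra hcon
  push Not at hcon
  have h1 : ∀ pq, 128 * (g * g) * (Finset.univ.filter fun i => I.Sat (A pq) i).card < m :=
    fun pq => hcon (A pq)
  have h2 : ∑ pq : Fin (8 * g) × Fin (8 * g), 128 * (g * g) *
      (Finset.univ.filter fun i => I.Sat (A pq) i).card <
      ∑ pq : Fin (8 * g) × Fin (8 * g), m := by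
    refine Finset.sum_lt_sum_of_nonempty ?_ fun pq _ => h1 pq
    exact ⟨(⟨0, by omega⟩, ⟨0, by omega⟩), Finset.mem_univ _⟩
  rw [← Finset.mul_sum, Finset.sum_const, Finset.card_univ, Fintype.card_prod, Fintype.card_fin,
    smul_eq_mul] at h2
  have h3 : 128 * (g * g) * good.card < 8 * g * (8 * g) * m :=
    lt_of_le_of_lt (Nat.mul_le_mul_left _ hcov) h2
  have h4 : 8 * g * (8 * g) * m ≤ 128 * (g * g) * good.card := by
    calc 8 * g * (8 * g) * m ≤ 8 * g * (8 * g) * (2 * good.card) := Nat.mul_le_mul_left _ hgood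
      _ = 128 * (g * g) * good.card := by ring
  omega

end no

end Pool.Agent.NPC.H604
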