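import Pool.Agent.H604R2.VDRed

/-!
# No constant-factor approximation for min-Cost-VERTEX-DEL
-/

namespace Pool.Agent.NPC.H604

open Pool.Agent.NPC

/-- transport of feasibility along the enumeration of the vertices -/
theorem feasible_iff {n : ℕ} {V : Type} [Finite V] [DecidableEq V] (H : SimpleGraph V)
    (e : Fin n ≃ V) (S : Finset (Fin n)) :
    Feasible (H.comap e) S ↔ Stable (H.induce (↑(S.image e) : Set V)ᶜ) := by
  have hmem : ∀ a : Fin n, a ∈ ((↑S : Set (Fin n))ᶜ) ↔ e a ∈ ((↑(S.image e) : Set V)ᶜ) := by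
    intro a
    simp
  let f : (H.comap e).induce ((↑S : Set (Fin n))ᶜ) ≃g H.induce ((↑(S.image e) : Set V)ᶜ) :=
    { toEquiv := e.subtypeEquiv hmem
      map_rel_iff' := Iff.rfl }
  exact ⟨fun h => Stable.of_iso f h, fun h => Stable.of_iso f.symm h⟩

theorem sat_iff {k : ℕ} (cs : List Con) (A : Bool → ℕ → Fin k) :
    (Finset.univ.filter fun i => (lc k cs).Sat A i).card = numSat (A false) (A true) cs := by
  unfold numSat
  congr 1
  ext i
  simp [LC.Sat, lc]

/-- YES instances have cheap solutions, NO instances do not. -/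
theorem gap (k g : ℕ) (hk : 0 < k) (hg : 0 < g) (cs : List Con) :
    ∃ (n : ℕ) (G : SimpleGraph (Fin n)) (c : Fin n → ℕ), TwoValued c ∧
      red k g cs = (adjMat G, List.ofFn c) ∧
      (∀ a b : ℕ → Fin k, 4 * g * cs.length ≤ 4 * g * numSat a b cs + cs.length →
        ∃ S, Feasible G S ∧ ∑ i ∈ S, c i ≤ 3 * tt k cs * cs.length) ∧
      (0 < cs.length → ∀ S, Feasible G S → ∑ i ∈ S, c i ≤ g * tt k cs * cs.length →
        ∃ a b : ℕ → Fin k, cs.length ≤ 128 * (g * g) * numSat a b cs) := by
  classical
  obtain ⟨n, e, he⟩ := exists_gadget k g cs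
  refine ⟨n, _, _, ?_, he, ?_, ?_⟩
  · refine ⟨4 * g * tt k cs, 1, fun i => ?_⟩
    have h0 : ∀ v : Vtx cs.length k (tt k cs), cst (4 * g * tt k cs) v = 4 * g * tt k cs ∨
        cst (4 * g * tt k cs) v = 1 := by
      rintro (v | v | v)
      · exact Or.inl rfl
      · exact Or.inl rfl
      · exact Or.inr rfl
    exact h0 (e i)
  · intro a b hab
    let A : Bool → ℕ → Fin k := fun d => if d then b else a
    refine ⟨(solY (lc k cs) A (tt k cs)).image e.symm, ?_, ?_⟩
    · rw [feasible_iff]
      have h1 : ((solY (lc k cs) A (tt k cs)).image e.symm).image e = solY (lc k cs) A (tt k cs) := by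
        rw [Finset.image_image]
        simp
      rw [h1]
      by_cases hm : cs.length = 0
      · -- no constraints: the vertex type is empty
        have hE : IsEmpty (Vtx cs.length k (tt k cs)) := by
          rw [hm]
          infer_instance
        have : (lc k cs).gad (tt k cs) = ⊥ := by
          ext x
          exact hE.elim x
        refine stable_of_partner _ ∅ id (by simp) (by simp) ?_
        intro u
        exact hE.elim u
      · refine yes_stable (lc k cs) A ?_
        unfold tt
        have h2 : 0 < cs.length := Nat.pos_of_ne_zero hm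
        calc k = 1 * k := (one_mul k).symm
          _ ≤ (2 * (cs.length * k)) * k := Nat.mul_le_mul_right k (by
              have := Nat.mul_pos h2 hk
              omega)
          _ = 2 * (cs.length * k * k) := by ring
    · rw [Finset.sum_image (fun x _ y _ h => e.symm.injective h)]
      simp only [Equiv.apply_symm_apply]
      rw [yes_cost]
      have h1 : (Finset.univ.filter fun i => ¬ (lc k cs).Sat A i).card +
          (Finset.univ.filter fun i => (lc k cs).Sat A i).card = cs.length := by
        rw [add_comm, Finset.card_filter_add_card_filter_not, Finset.card_univ, Fintype.card_fin]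
      have h2 := sat_iff cs A
      have h3 : numSat (A false) (A true) cs = numSat a b cs := by simp [A]
      rw [h2, h3] at h1
      set u := (Finset.univ.filter fun i => ¬ (lc k cs).Sat A i).card
      have h4 : 4 * g * u ≤ cs.length := by
        have h5 : 4 * g * cs.length = 4 * g * u + 4 * g * numSat a b cs := by
          rw [← Nat.mul_add, h1]
        omega
      calc 4 * g * tt k cs * u + 2 * cs.length * tt k cs
          = (4 * g * u) * tt k cs + 2 * cs.length * tt k cs := by ring
        _ ≤ cs.length * tt k cs + 2 * cs.length * tt k cs :=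
            Nat.add_le_add_right (Nat.mul_le_mul_right _ h4) _
        _ = 3 * tt k cs * cs.length := by ring
  · intro hm S hS hc
    rw [feasible_iff] at hS
    have h1 : ∑ v ∈ S.image e, cst (4 * g * tt k cs) v ≤ g * tt k cs * cs.length := by
      rw [Finset.sum_image (fun x _ y _ h => e.injective h)]
      exact hc
    obtain ⟨A, hA⟩ := no_case (lc k cs) (S.image e) g hg hm hk rfl hS h1
    refine ⟨A false, A true, ?_⟩
    rw [← sat_iff cs A]
    exact hA

/-- What is used: `NP`-hardness of a gap problem with arbitrary relations (this follows from the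
Unique Games Conjecture). -/
def GapCSP : Prop :=
  ∀ ε δ : ℝ, 0 < ε → 0 < δ → ∃ k : ℕ, GapHard
    (fun cs => cs ≠ [] ∧ ∃ a b : ℕ → Fin k, (1 - ε) * cs.length ≤ numSat a b cs)
    (fun cs => cs ≠ [] ∧ ∀ a b : ℕ → Fin k, (numSat a b cs : ℝ) ≤ δ * cs.length)

theorem GapHard.mono {Y N Y' N' : List Con → Prop} (h : GapHard Y N) (hY : ∀ cs, Y cs → Y' cs)
    (hN : ∀ cs, N cs → N' cs) : GapHard Y' N' := by
  intro L hL
  obtain ⟨f, hf, h1, h2⟩ := h L hL
  exact ⟨f, hf, fun x hx => hY _ (h1 x hx), fun x hx => hN _ (h2 x hx)⟩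

theorem UGC.gapCSP (h : UGC) : GapCSP := by
  intro ε δ hε hδ
  obtain ⟨k, hk⟩ := h ε δ hε hδ
  exact ⟨k, hk.mono (fun cs h => ⟨h.1, h.2.2⟩) (fun cs h => ⟨h.1, h.2.2⟩)⟩

theorem inP_empty {L : Set (List Bool)} (h : ∀ x, x ∉ L) : InP L :=
  ⟨fun _ => [false], polyTime_of_poly (Poly.const false), fun x => by simp [h x]⟩

/-- Main theorem. -/
theorem main (h : GapCSP) (hP : PNeNP) (α : ℝ) :
    ¬ ∃ A : List Bool → List Bool, PolyTime A ∧ Approximates α A := by
  rintro ⟨A, hA, happ⟩
  obtain ⟨L, hL, hnL⟩ := hP
  apply hnL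
  show InP L
  -- parameters
  obtain ⟨α', hα'⟩ := exists_nat_ge α
  set g : ℕ := 3 * (α' + 1) with hg
  have hgpos : 0 < g := by omega
  have hgR : (0 : ℝ) < g := by exact_mod_cast hgpos
  obtain ⟨k, hk⟩ := h (1 / (4 * g)) (1 / (128 * (g * g) + 1)) (by positivity) (by positivity)
  obtain ⟨f, hf, hyes, hno⟩ := hk L hL
  rcases Nat.eq_zero_or_pos k with hk0 | hkpos
  · subst hk0
    refine inP_empty fun x hx => ?_
    obtain ⟨-, a, -⟩ := hyes x hx
    exact (a 0).elim0
  -- the decision procedure
  have hmid : PolyTime (fun y : List Bool => bits (red k g ((unbits (List Con) y).getD []))) :=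
    polyTime_bits ((poly_red k g).comp (Poly.optGetD poly_unbits (Poly.const [])))
  have hF : PolyTime (fun x => A (bits (red k g (f x)))) := by
    have h1 := H642R2.TMSim.polyTime_comp hA (H642R2.TMSim.polyTime_comp hmid hf)
    have h2 : (fun x => A (bits (red k g ((unbits (List Con) (bits (f x))).getD [])))) =
        fun x => A (bits (red k g (f x))) := by
      funext x
      rw [unbits_bits]
      rfl
    rw [← h2]
    exact h1
  have hpc1 : PC (fun x : List Bool => x) (bits : List Bool → List Bool)
      (fun x => bits (f x)) := PC.comp (g := fun x => x) (f := fun x => bits (f x)) PC.rawIn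
        (H642R2.TMSim.polyTime_toPC hf)
  have hpc2 : PC (fun x : List Bool => x) (bits : List Bool → List Bool)
      (fun x => A (bits (red k g (f x)))) := PC.comp (g := fun x => x)
        (f := fun x => A (bits (red k g (f x)))) PC.rawIn (H642R2.TMSim.polyTime_toPC hF)
  have hpc3 : PC (fun x : List Bool => x) (bits : List Bool × List Bool → List Bool)
      (fun x => (bits (f x), A (bits (red k g (f x))))) := by
    obtain ⟨c, p, hcp⟩ := PC.node (ea := fun x : List Bool => x)
      (f := fun x => toT (bits (f x))) (g := fun x => toT (A (bits (red k g (f x))))) hpc1 hpc2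
    exact ⟨c, p, hcp⟩
  let D : List Bool × List Bool → Bool := fun p =>
    test k g ((unbits (List Con) p.1).getD []) ((unbits (List Bool) p.2).getD [])
  have hD : Poly D := by
    refine poly_test k g (Poly.optGetD (poly_unbits.comp (Poly.fst Poly.id)) (Poly.const []))
      (Poly.optGetD (poly_unbits.comp (Poly.snd Poly.id)) (Poly.const []))
  have hpc4 : PC (fun x : List Bool => x) (fun x : List Bool => x)
      (fun x => [D (bits (f x), A (bits (red k g (f x))))]) :=
    PC.comp (g := fun b => [b]) (f := fun x => D (bits (f x), A (bits (red k g (f x)))))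
      PC.rawBool (PC.comp (g := D) (f := fun x => (bits (f x), A (bits (red k g (f x))))) hD hpc3)
  refine ⟨_, PC.toPolyTime hpc4, fun x => ?_⟩
  simp only [D, unbits_bits, Option.getD_some, List.cons.injEq, and_true]
  obtain ⟨n, G, c, htwo, hred, hY, hN⟩ := gap k g hkpos hgpos (f x)
  obtain ⟨S, hout, hfeas, hopt⟩ := happ n G c htwo
  rw [hred, hout, unbits_bits, Option.getD_some, test, decide_eq_true_eq]
  have hcos : cosR k g (f x) = List.ofFn c := by
    have := congrArg Prod.snd hred
    exact this
  rw [hcos, tot_eq]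
  constructor
  · intro hx
    obtain ⟨-, a, b, hab⟩ := hyes x hx
    have h1 : 4 * g * (f x).length ≤ 4 * g * numSat a b (f x) + (f x).length := by
      have h2 : (4 * (g : ℝ)) * ((1 - 1 / (4 * g)) * ((f x).length : ℝ)) ≤
          (4 * g) * (numSat a b (f x) : ℝ) := mul_le_mul_of_nonneg_left hab (by positivity)
      have h3 : (4 * (g : ℝ)) * ((1 - 1 / (4 * g)) * ((f x).length : ℝ)) =
          4 * g * (f x).length - (f x).length := by
        field_simp
      rw [h3] at h2
      have h4 : (4 * (g : ℝ)) * (f x).length ≤ 4 * g * numSat a b (f x) + (f x).length := by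
        linarith
      exact_mod_cast h4
    obtain ⟨S', hS', hc'⟩ := hY a b h1
    have h5 := hopt S' hS'
    have h6 : ((∑ i ∈ S, c i : ℕ) : ℝ) ≤ ((g * tt k (f x) * (f x).length : ℕ) : ℝ) := by
      have h7 : ((∑ i ∈ S', c i : ℕ) : ℝ) ≤ ((3 * tt k (f x) * (f x).length : ℕ) : ℝ) := by
        exact_mod_cast hc'
      have h8 : α ≤ (α' : ℝ) + 1 := by linarith
      calc ((∑ i ∈ S, c i : ℕ) : ℝ) ≤ α * ((∑ i ∈ S', c i : ℕ) : ℝ) := h5
        _ ≤ ((α' : ℝ) + 1) * ((∑ i ∈ S', c i : ℕ) : ℝ) :=
            mul_le_mul_of_nonneg_right h8 (Nat.cast_nonneg _)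
        _ ≤ ((α' : ℝ) + 1) * ((3 * tt k (f x) * (f x).length : ℕ) : ℝ) :=
            mul_le_mul_of_nonneg_left h7 (by positivity)
        _ = ((g * tt k (f x) * (f x).length : ℕ) : ℝ) := by
            rw [hg]; push_cast; ring
    exact_mod_cast h6
  · intro hle
    by_contra hx
    obtain ⟨hne, hall⟩ := hno x hx
    have hm : 0 < (f x).length := List.length_pos_iff.2 hne
    obtain ⟨a, b, hab⟩ := hN hm S hfeas hle
    have h1 := hall a b
    have h2 : ((f x).length : ℝ) ≤ 128 * (g * g) * (numSat a b (f x) : ℝ) := by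
      exact_mod_cast hab
    have h3 : (0 : ℝ) < (f x).length := by exact_mod_cast hm
    have h4 : 128 * ((g : ℝ) * g) * (1 / (128 * (g * g) + 1) * (f x).length) <
        (f x).length := by
      have h5 : (0 : ℝ) < 128 * (g * g) + 1 := by positivity
      rw [← mul_assoc, mul_one_div]
      have h6 : 128 * ((g : ℝ) * g) / (128 * (g * g) + 1) < 1 := by
        rw [div_lt_one h5]
        linarith
      nlinarith
    have h5 : 128 * ((g : ℝ) * g) * (numSat a b (f x) : ℝ) ≤
        128 * ((g : ℝ) * g) * (1 / (128 * (g * g) + 1) * (f x).length) :=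
      mul_le_mul_of_nonneg_left h1 (by positivity)
    linarith

end Pool.Agent.NPC.H604
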