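import Pool.Agent.H604R2.VDGadget
import Pool.Agent.NPC.Dec
import Pool.Agent.H671R2.PolyAuto

/-!
# The reduction as a polynomial-time function on lists
-/

namespace Pool.Agent.NPC.H604

open Pool.Agent.NPC

/-- Descriptors of the vertices of the gadget. -/
abbrev Desc : Type := ℕ × ℕ × ℕ × ℕ

/-- constraint number `i` -/
def cc (cs : List Con) (i : ℕ) : Con := cs.getD i ((0, 0), [])

/-- the oriented adjacency of descriptors (tag, index, first label, second label/copy) -/
def relB (cs : List Con) (p q : Desc) : Bool :=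
  decide (p.1 = 0 ∧ q.1 = 0 ∧ p.2.1 = q.2.1 ∧ ¬ p.2.2.1 = q.2.2.1) ||
  (decide (p.1 = 0 ∧ q.1 = 1 ∧ p.2.1 = q.2.1 ∧ p.2.2.1 = 0 ∧
    (q.2.2.1, q.2.2.2) ∈ (cc cs p.2.1).2) ||
  (decide (p.1 = 1 ∧ q.1 = 2 ∧ (p.2.2.1, p.2.2.2) ∈ (cc cs p.2.1).2 ∧
    (cc cs q.2.1).1.1 = (cc cs p.2.1).1.1 ∧ q.2.2.1 = p.2.2.1) ||
  decide (p.1 = 1 ∧ q.1 = 3 ∧ (p.2.2.1, p.2.2.2) ∈ (cc cs p.2.1).2 ∧
    (cc cs q.2.1).1.2 = (cc cs p.2.1).1.2 ∧ q.2.2.1 = p.2.2.2)))

/-- the list of all descriptors -/
def descs (m k t : ℕ) : List Desc :=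
  ((List.range m ×ˢ List.range 3).map fun p => (0, p.1, p.2, 0)) ++
  (((List.range m ×ˢ (List.range k ×ˢ List.range k)).map fun p => (1, p.1, p.2.1, p.2.2)) ++
  (((List.range m ×ˢ (List.range k ×ˢ List.range t)).map fun p => (2, p.1, p.2.1, p.2.2)) ++
  ((List.range m ×ˢ (List.range k ×ˢ List.range t)).map fun p => (3, p.1, p.2.1, p.2.2))))

/-- the cost of a descriptor -/
def costD (B : ℕ) (p : Desc) : ℕ := if p.1 ≤ 1 then B else 1

/-- number of copies -/
def tt (k : ℕ) (cs : List Con) : ℕ := 2 * (cs.length * k * k)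

/-- the list of descriptors of the gadget of an instance -/
def dl (k : ℕ) (cs : List Con) : List Desc := descs cs.length k (tt k cs)

/-- the matrix of the reduction -/
def matR (k : ℕ) (cs : List Con) : List (List Bool) :=
  (dl k cs).map fun p => (dl k cs).map fun q => relB cs p q || relB cs q p

/-- the costs of the reduction -/
def cosR (k g : ℕ) (cs : List Con) : List ℕ := (dl k cs).map fun p => costD (4 * g * tt k cs) p

/-- the reduction -/
def red (k g : ℕ) (cs : List Con) : List (List Bool) × List ℕ := (matR k cs, cosR k g cs)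

/-- the total cost of a characteristic vector -/
def tot (cos : List ℕ) (out : List Bool) : ℕ :=
  ((out.zip cos).map fun p => bif p.1 then p.2 else 0).sum

/-- the final test -/
def test (k g : ℕ) (cs : List Con) (out : List Bool) : Bool :=
  decide (tot (cosR k g cs) out ≤ g * tt k cs * cs.length)

/-! ### Polynomial time -/

section poly

variable {α : Type} [TEnc α]

theorem poly_cc {f : α → List Con} {i : α → ℕ} (hf : Poly f) (hi : Poly i) :
    Poly (fun a => cc (f a) (i a)) :=
  Poly.getD hf hi (Poly.const ((0, 0), []))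

theorem poly_and5 {p q r s u : α → Prop} [DecidablePred p] [DecidablePred q] [DecidablePred r]
    [DecidablePred s] [DecidablePred u] (hp : Poly (fun a => decide (p a)))
    (hq : Poly (fun a => decide (q a))) (hr : Poly (fun a => decide (r a)))
    (hs : Poly (fun a => decide (s a))) (hu : Poly (fun a => decide (u a))) :
    Poly (fun a => decide (p a ∧ q a ∧ r a ∧ s a ∧ u a)) :=
  Poly.decide_and hp (Poly.decide_and hq (Poly.decide_and hr (Poly.decide_and hs hu)))

theorem poly_relB {f : α → List Con} {p q : α → Desc} (hf : Poly f) (hp : Poly p) (hq : Poly q) :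
    Poly (fun a => relB (f a) (p a) (q a)) := by
  have p1 := Poly.fst hp
  have p2 := Poly.fst (Poly.snd hp)
  have p3 := Poly.fst (Poly.snd (Poly.snd hp))
  have p4 := Poly.snd (Poly.snd (Poly.snd hp))
  have q1 := Poly.fst hq
  have q2 := Poly.fst (Poly.snd hq)
  have q3 := Poly.fst (Poly.snd (Poly.snd hq))
  have q4 := Poly.snd (Poly.snd (Poly.snd hq))
  have cp := poly_cc hf p2
  have cq := poly_cc hf q2
  unfold relB
  refine Poly.or (Poly.decide_and (Poly.decide_eq p1 (Poly.const 0))
    (Poly.decide_and (Poly.decide_eq q1 (Poly.const 0)) (Poly.decide_and (Poly.decide_eq p2 q2)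
      (Poly.decide_not (Poly.decide_eq p3 q3))))) (Poly.or ?_ (Poly.or ?_ ?_))
  · exact poly_and5 (Poly.decide_eq p1 (Poly.const 0)) (Poly.decide_eq q1 (Poly.const 1))
      (Poly.decide_eq p2 q2) (Poly.decide_eq p3 (Poly.const 0))
      (Poly.dec_mem (Poly.pair q3 q4) (Poly.snd cp))
  · exact poly_and5 (Poly.decide_eq p1 (Poly.const 1)) (Poly.decide_eq q1 (Poly.const 2))
      (Poly.dec_mem (Poly.pair p3 p4) (Poly.snd cp))
      (Poly.decide_eq (Poly.fst (Poly.fst cq)) (Poly.fst (Poly.fst cp)))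
      (Poly.decide_eq q3 p3)
  · exact poly_and5 (Poly.decide_eq p1 (Poly.const 1)) (Poly.decide_eq q1 (Poly.const 3))
      (Poly.dec_mem (Poly.pair p3 p4) (Poly.snd cp))
      (Poly.decide_eq (Poly.snd (Poly.fst cq)) (Poly.snd (Poly.fst cp)))
      (Poly.decide_eq q3 p4)

theorem uPoly_tt (k : ℕ) : UPoly (tt k) :=
  UPoly.mul (UPoly.const 2) (UPoly.mul (UPoly.mul (UPoly.length Poly.id) (UPoly.const k))
    (UPoly.const k))

theorem poly_dl (k : ℕ) : Poly (dl k) := by
  have hm : Poly (fun cs : List Con => List.range cs.length) := (UPoly.length Poly.id).range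
  have hk : Poly (fun _ : List Con => List.range k) := Poly.const _
  have h3 : Poly (fun _ : List Con => List.range 3) := Poly.const _
  have ht : Poly (fun cs : List Con => List.range (tt k cs)) := (uPoly_tt k).range
  have x1 := R671.poly_product hm h3
  have x2 := R671.poly_product hm (R671.poly_product hk hk)
  have x3 := R671.poly_product hm (R671.poly_product hk ht)
  unfold dl descs
  refine Poly.append (Poly.map (F := fun _ (p : ℕ × ℕ) => ((0, p.1, p.2, 0) : Desc)) x1
      (Poly.pair (Poly.const 0) (Poly.pair (Poly.fst (Poly.snd Poly.id))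
        (Poly.pair (Poly.snd (Poly.snd Poly.id)) (Poly.const 0)))))
    (Poly.append (Poly.map (F := fun _ (p : ℕ × ℕ × ℕ) => ((1, p.1, p.2.1, p.2.2) : Desc)) x2 ?_)
    (Poly.append (Poly.map (F := fun _ (p : ℕ × ℕ × ℕ) => ((2, p.1, p.2.1, p.2.2) : Desc)) x3 ?_)
    (Poly.map (F := fun _ (p : ℕ × ℕ × ℕ) => ((3, p.1, p.2.1, p.2.2) : Desc)) x3 ?_))) <;>
  exact Poly.pair (Poly.const _) (Poly.pair (Poly.fst (Poly.snd Poly.id))
        (Poly.pair (Poly.fst (Poly.snd (Poly.snd Poly.id)))
          (Poly.snd (Poly.snd (Poly.snd Poly.id)))))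

theorem poly_matR (k : ℕ) : Poly (matR k) := by
  unfold matR
  refine Poly.map (F := fun cs p => (dl k cs).map fun q => relB cs p q || relB cs q p)
    (poly_dl k) ?_
  refine Poly.map (l := fun x : List Con × Desc => dl k x.1)
    (F := fun (x : List Con × Desc) q => relB x.1 x.2 q || relB x.1 q x.2)
    ((poly_dl k).comp (Poly.fst Poly.id)) ?_
  have h1 : Poly (fun p : (List Con × Desc) × Desc => p.1.1) := Poly.fst (Poly.fst Poly.id)
  have h2 : Poly (fun p : (List Con × Desc) × Desc => p.1.2) := Poly.snd (Poly.fst Poly.id)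
  have h3 : Poly (fun p : (List Con × Desc) × Desc => p.2) := Poly.snd Poly.id
  exact Poly.or (poly_relB h1 h2 h3) (poly_relB h1 h3 h2)

theorem poly_cosR (k g : ℕ) : Poly (cosR k g) := by
  unfold cosR costD
  refine Poly.map (F := fun cs (p : Desc) => if p.1 ≤ 1 then 4 * g * tt k cs else 1)
    (poly_dl k) ?_
  exact Poly.ite (Poly.decide_le (Poly.fst (Poly.snd Poly.id)) (Poly.const 1))
    (Poly.mul (Poly.const (4 * g)) ((uPoly_tt k).toPoly.comp (Poly.fst Poly.id))) (Poly.const 1)

theorem poly_red (k g : ℕ) : Poly (red k g) := Poly.pair (poly_matR k) (poly_cosR k g)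

theorem poly_tot {f : α → List ℕ} {o : α → List Bool} (hf : Poly f) (ho : Poly o) :
    Poly (fun a => tot (f a) (o a)) := by
  unfold tot
  refine Poly.sum (Poly.map (F := fun _ (p : Bool × ℕ) => bif p.1 then p.2 else 0)
    (Poly.zip ho hf) ?_)
  exact Poly.cond (Poly.fst (Poly.snd Poly.id)) (Poly.snd (Poly.snd Poly.id)) (Poly.const 0)

theorem poly_test (k g : ℕ) {f : α → List Con} {o : α → List Bool} (hf : Poly f) (ho : Poly o) :
    Poly (fun a => test k g (f a) (o a)) := by
  unfold test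
  refine Poly.decide_le (poly_tot ((poly_cosR k g).comp hf) ho) ?_
  exact Poly.mul (Poly.mul (Poly.const g) ((uPoly_tt k).toPoly.comp hf)) (Poly.length hf)

end poly

/-! ### The gadget graph of a list instance -/

section graph

variable (k : ℕ) (cs : List Con)

/-- the label cover instance of a list of constraints -/
def lc : LC cs.length k where
  nm i d := if d then cs[i].1.2 else cs[i].1.1
  R i a b := decide (((a : ℕ), (b : ℕ)) ∈ cs[i].2)

variable {k cs}

theorem cc_fin (i : Fin cs.length) : cc cs i = cs[i] := by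
  simp [cc]

/-- the descriptor of a vertex -/
def code {m k t : ℕ} : Vtx m k t → Desc
  | .inl (i, s) => (0, i, s, 0)
  | .inr (.inl (i, a, b)) => (1, i, a, b)
  | .inr (.inr (i, d, c, j)) => (if d then 3 else 2, i, c, j)

theorem code_injective {m k t : ℕ} : Function.Injective (code : Vtx m k t → Desc) := by
  rintro (⟨i, s⟩ | ⟨i, a, b⟩ | ⟨i, d, c, j⟩) (⟨i', s'⟩ | ⟨i', a', b'⟩ | ⟨i', d', c', j'⟩) h
  · simp only [code, Prod.mk.injEq, true_and, and_true, Fin.val_inj] at h
    rw [h.1, h.2]
  · simp [code] at h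
  · simp only [code, Prod.mk.injEq] at h
    split_ifs at h <;> simp at h
  · simp [code] at h
  · simp only [code, Prod.mk.injEq, true_and, Fin.val_inj] at h
    rw [h.1, h.2.1, h.2.2]
  · simp only [code, Prod.mk.injEq] at h
    split_ifs at h <;> simp at h
  · simp only [code, Prod.mk.injEq] at h
    split_ifs at h <;> simp at h
  · simp only [code, Prod.mk.injEq] at h
    split_ifs at h <;> simp at h
  · simp only [code, Prod.mk.injEq, Fin.val_inj] at h
    obtain ⟨h1, rfl, rfl, rfl⟩ := h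
    have : d = d' := by
      cases d <;> cases d' <;> simp at h1 ⊢
    rw [this]

theorem mem_descs {m k t : ℕ} (z : Desc) : z ∈ descs m k t ↔ ∃ x : Vtx m k t, code x = z := by
  obtain ⟨z1, z2, z3, z4⟩ := z
  simp only [descs, List.mem_append, List.mem_map, List.mem_product, List.mem_range, Prod.exists,
    Prod.mk.injEq]
  constructor
  · rintro (⟨i, s, ⟨hi, hs⟩, rfl, rfl, rfl, rfl⟩ | ⟨i, a, b, ⟨hi, ha, hb⟩, rfl, rfl, rfl, rfl⟩ |
      ⟨i, c, j, ⟨hi, hc, hj⟩, rfl, rfl, rfl, rfl⟩ | ⟨i, c, j, ⟨hi, hc, hj⟩, rfl, rfl, rfl, rfl⟩)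
    · exact ⟨tv ⟨i, hi⟩ ⟨s, hs⟩, rfl⟩
    · exact ⟨cv ⟨i, hi⟩ ⟨a, ha⟩ ⟨b, hb⟩, rfl⟩
    · exact ⟨sv ⟨i, hi⟩ false ⟨c, hc⟩ ⟨j, hj⟩, rfl⟩
    · exact ⟨sv ⟨i, hi⟩ true ⟨c, hc⟩ ⟨j, hj⟩, rfl⟩
  · rintro ⟨⟨i, s⟩ | ⟨i, a, b⟩ | ⟨i, d, c, j⟩, h⟩
    · simp only [code, Prod.mk.injEq] at h
      exact Or.inl ⟨i, s, ⟨i.2, s.2⟩, h⟩
    · simp only [code, Prod.mk.injEq] at h
      exact Or.inr (Or.inl ⟨i, a, b, ⟨i.2, a.2, b.2⟩, h⟩)
    · cases d
      · simp only [code, Prod.mk.injEq, Bool.false_eq_true, if_false] at h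
        exact Or.inr (Or.inr (Or.inl ⟨i, c, j, ⟨i.2, c.2, j.2⟩, h⟩))
      · simp only [code, Prod.mk.injEq, if_true] at h
        exact Or.inr (Or.inr (Or.inr ⟨i, c, j, ⟨i.2, c.2, j.2⟩, h⟩))

theorem nodup_descs (m k t : ℕ) : (descs m k t).Nodup := by
  have hr : ∀ n, (List.range n).Nodup := fun n => List.nodup_range
  unfold descs
  rw [List.nodup_append, List.nodup_append, List.nodup_append]
  refine ⟨?_, ⟨?_, ⟨?_, ?_, ?_⟩, ?_⟩, ?_⟩
  · refine List.Nodup.map (fun p q h => ?_) ((hr m).product (hr 3))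
    simp only [Prod.mk.injEq, true_and, and_true] at h
    exact Prod.ext h.1 h.2
  · refine List.Nodup.map (fun p q h => ?_) ((hr m).product ((hr k).product (hr k)))
    simp only [Prod.mk.injEq, true_and] at h
    exact Prod.ext h.1 (Prod.ext h.2.1 h.2.2)
  · refine List.Nodup.map (fun p q h => ?_) ((hr m).product ((hr k).product (hr t)))
    simp only [Prod.mk.injEq, true_and] at h
    exact Prod.ext h.1 (Prod.ext h.2.1 h.2.2)
  · refine List.Nodup.map (fun p q h => ?_) ((hr m).product ((hr k).product (hr t)))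
    simp only [Prod.mk.injEq, true_and] at h
    exact Prod.ext h.1 (Prod.ext h.2.1 h.2.2)
  · intro a ha b hb hab
    subst hab
    simp only [List.mem_map] at ha hb
    obtain ⟨p, -, hp⟩ := ha
    obtain ⟨q, -, hq⟩ := hb
    rw [← hp] at hq
    simp at hq
  · intro a ha b hb hab
    subst hab
    simp only [List.mem_map, List.mem_append] at ha hb
    obtain ⟨p, -, hp⟩ := ha
    rcases hb with ⟨q, -, hq⟩ | ⟨q, -, hq⟩ <;>
    · rw [← hp] at hq
      simp at hq
  · intro a ha b hb hab
    subst hab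
    simp only [List.mem_map, List.mem_append] at ha hb
    obtain ⟨p, -, hp⟩ := ha
    rcases hb with ⟨q, -, hq⟩ | ⟨q, -, hq⟩ | ⟨q, -, hq⟩ <;>
    · rw [← hp] at hq
      simp at hq

theorem relB_code {t : ℕ} (x y : Vtx cs.length k t) :
    relB cs (code x) (code y) = true ↔ (lc k cs).rel t x y := by
  rcases x with ⟨i, s⟩ | ⟨i, a, b⟩ | ⟨i, d, c, j⟩ <;>
    rcases y with ⟨i', s'⟩ | ⟨i', a', b'⟩ | ⟨i', d', c', j'⟩
  · simp [relB, code, LC.rel, Fin.val_inj]
  · simp only [relB, code, LC.rel, lc, cc_fin]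
    constructor
    · intro h
      simp only [Bool.or_eq_true, decide_eq_true_eq] at h
      simp only [one_ne_zero, zero_ne_one, false_and, and_false, true_and, Fin.val_inj,
        Fin.val_eq_zero_iff, or_false, false_or] at h
      simpa using h
    · rintro ⟨rfl, rfl, h⟩
      simp only [decide_eq_true_eq] at h
      have h' : ((a' : ℕ), (b' : ℕ)) ∈ cs[(i : ℕ)].2 := h
      simp [h']
  · simp only [relB, code, LC.rel]
    cases d' <;> simp
  · simp [relB, code, LC.rel]
  · simp [relB, code, LC.rel]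
  · simp only [relB, code, LC.rel, lc, cc_fin]
    cases d'
    · simp [Fin.val_inj]
    · simp [Fin.val_inj]
  · simp only [relB, code, LC.rel]
    cases d <;> simp
  · simp only [relB, code, LC.rel]
    cases d <;> simp
  · simp only [relB, code, LC.rel]
    cases d <;> cases d' <;> simp

theorem costD_code {m k t : ℕ} (B : ℕ) (x : Vtx m k t) : costD B (code x) = cst B x := by
  rcases x with ⟨i, s⟩ | ⟨i, a, b⟩ | ⟨i, d, c, j⟩
  · rfl
  · rfl
  · cases d <;> simp [costD, code, cst]

open Classical in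
/-- the reduced instance comes from the gadget -/
theorem exists_gadget (k g : ℕ) (cs : List Con) : ∃ (n : ℕ) (e : Fin n ≃ Vtx cs.length k (tt k cs)),
    red k g cs = (adjMat (((lc k cs).gad (tt k cs)).comap e),
      List.ofFn fun i => cst (4 * g * tt k cs) (e i)) := by
  obtain ⟨e, he⟩ := R671.exists_equiv (dl k cs) (nodup_descs _ _ _)
    (code : Vtx cs.length k (tt k cs) → Desc) code_injective (fun z => mem_descs z)
  refine ⟨(dl k cs).length, e, ?_⟩
  unfold red
  refine Prod.ext ?_ ?_
  · simp only [matR, adjMat]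
    apply List.ext_getElem
    · simp
    · intro i h1 h2
      simp only [List.getElem_map, List.getElem_ofFn]
      apply List.ext_getElem
      · simp
      · intro j h3 h4
        simp only [List.getElem_map, List.getElem_ofFn]
        have hi : i < (dl k cs).length := by simpa using h1
        have hj : j < (dl k cs).length := by simpa using h3
        have e1 : (dl k cs)[i] = code (e ⟨i, hi⟩) := (he ⟨i, hi⟩).symm
        have e2 : (dl k cs)[j] = code (e ⟨j, hj⟩) := (he ⟨j, hj⟩).symm
        have e3 : (relB cs (dl k cs)[i] (dl k cs)[j] || relB cs (dl k cs)[j] (dl k cs)[i]) =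
            (relB cs (code (e ⟨i, hi⟩)) (code (e ⟨j, hj⟩)) ||
              relB cs (code (e ⟨j, hj⟩)) (code (e ⟨i, hi⟩))) := by rw [e1, e2]
        rw [e3, Bool.eq_iff_iff, Bool.or_eq_true, relB_code, relB_code, decide_eq_true_iff,
          SimpleGraph.comap_adj]
        unfold LC.gad
        rw [SimpleGraph.fromRel_adj]
        constructor
        · intro h
          refine ⟨?_, h⟩
          intro heq
          rw [heq, or_self] at h
          revert h
          rcases e ⟨j, hj⟩ with ⟨i, s⟩ | ⟨i, a, b⟩ | ⟨i, d, c, j⟩ <;> simp [LC.rel]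
        · intro h
          exact h.2
  · simp only [cosR]
    apply List.ext_getElem
    · simp
    · intro i h1 h2
      simp only [List.getElem_map, List.getElem_ofFn]
      have hi : i < (dl k cs).length := by simpa using h1
      have e1 : (dl k cs)[i] = code (e ⟨i, hi⟩) := (he ⟨i, hi⟩).symm
      rw [e1, costD_code]

/-- the cost of a set from its characteristic vector -/
theorem tot_eq {n : ℕ} (c : Fin n → ℕ) (S : Finset (Fin n)) :
    tot (List.ofFn c) (List.ofFn fun i => decide (i ∈ S)) = ∑ i ∈ S, c i := by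
  unfold tot
  have h : (((List.ofFn fun i => decide (i ∈ S)).zip (List.ofFn c)).map
      fun p => bif p.1 then p.2 else 0) = List.ofFn fun i => if i ∈ S then c i else 0 := by
    apply List.ext_getElem
    · simp
    · intro i h1 h2
      simp only [List.getElem_map, List.getElem_zip, List.getElem_ofFn]
      by_cases h : (⟨i, by simpa using h2⟩ : Fin n) ∈ S <;> simp [h]
  rw [h, List.sum_ofFn, ← Finset.sum_filter]
  congr 1
  ext i
  simp

end graph

end Pool.Agent.NPC.H604
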