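import Pool.Agent.H604R2.VDDefs

/-!
# Matchings, fractional matchings, stable graphs
-/

namespace Pool.Agent.NPC.H604

open Finset

open Classical in
/-- fractional matchings, with finite sums -/
def IsFracF {V : Type*} [Fintype V] (G : SimpleGraph V) (x : Sym2 V → ℝ) : Prop :=
  (∀ e, 0 ≤ x e) ∧ (∀ e, e ∉ G.edgeSet → x e = 0) ∧ ∀ v, (∑ e with v ∈ e, x e) ≤ 1

/-- The fractional matching number, with finite sums. -/
noncomputable def nufF {V : Type*} [Fintype V] (G : SimpleGraph V) : ℝ :=
  sSup {r | ∃ x, IsFracF G x ∧ ∑ e, x e = r}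

/-- stability, with finite sums -/
def StableF {V : Type*} [Fintype V] (G : SimpleGraph V) : Prop := (nu G : ℝ) = nufF G

theorem isFrac_iff {V : Type*} [Fintype V] (G : SimpleGraph V) (x : Sym2 V → ℝ) :
    IsFrac G x ↔ IsFracF G x := by
  classical
  have h : ∀ v, (∑ᶠ e ∈ {e : Sym2 V | v ∈ e}, x e) = ∑ e with v ∈ e, x e := by
    intro v
    rw [finsum_mem_def, finsum_eq_sum_of_fintype, Finset.sum_filter]
    refine Finset.sum_congr rfl fun e _ => ?_
    simp [Set.indicator_apply]
  simp only [IsFrac, IsFracF, h]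

theorem nuf_eq {V : Type*} [Fintype V] (G : SimpleGraph V) : nuf G = nufF G := by
  classical
  simp only [nuf, nufF, isFrac_iff, finsum_eq_sum_of_fintype]

theorem stable_iff {V : Type*} [Fintype V] (G : SimpleGraph V) : Stable G ↔ StableF G := by
  rw [Stable, StableF, nuf_eq]

section basic

variable {V : Type*} [Fintype V] {G : SimpleGraph V}

theorem IsMatch.card_le {M : Finset (Sym2 V)} (_h : IsMatch G M) :
    M.card ≤ Fintype.card (Sym2 V) := Finset.card_le_univ M

theorem bddAbove_match : BddAbove {n | ∃ M, IsMatch G M ∧ M.card = n} :=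
  ⟨Fintype.card (Sym2 V), by rintro n ⟨M, hM, rfl⟩; exact hM.card_le⟩

theorem isMatch_empty : IsMatch G ∅ := ⟨by simp, by simp⟩

theorem IsMatch.card_le_nu {M : Finset (Sym2 V)} (h : IsMatch G M) : M.card ≤ nu G :=
  le_csSup bddAbove_match ⟨M, h, rfl⟩

theorem exists_max : ∃ M, IsMatch G M ∧ M.card = nu G :=
  Nat.sSup_mem (s := {n | ∃ M, IsMatch G M ∧ M.card = n}) ⟨0, ∅, isMatch_empty, rfl⟩
    bddAbove_match

open Classical in
/-- weak duality: the value of a fractional matching is at most the size of a vertex cover -/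
theorem IsFracF.sum_le {x : Sym2 V → ℝ} (hx : IsFracF G x) (W : Finset V)
    (hW : ∀ u v, G.Adj u v → u ∈ W ∨ v ∈ W) : ∑ e, x e ≤ W.card := by
  have h1 : ∑ e, x e ≤ ∑ e, ∑ v ∈ W, if v ∈ e then x e else 0 := by
    refine Finset.sum_le_sum fun e _ => ?_
    by_cases he : e ∈ G.edgeSet
    · have : ∃ w ∈ W, w ∈ e := by
        induction e using Sym2.ind with
        | _ a b =>
          rcases hW a b he with h | h
          · exact ⟨a, h, Sym2.mem_mk_left a b⟩
          · exact ⟨b, h, Sym2.mem_mk_right a b⟩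
      obtain ⟨w, hw, hwe⟩ := this
      calc x e = if w ∈ e then x e else 0 := by rw [if_pos hwe]
        _ ≤ ∑ v ∈ W, if v ∈ e then x e else 0 :=
          Finset.single_le_sum (f := fun v => if v ∈ e then x e else 0)
            (fun v _ => by
              show (0:ℝ) ≤ if v ∈ e then x e else 0
              split_ifs; exacts [hx.1 e, le_rfl]) hw
    · rw [hx.2.1 e he]
      exact Finset.sum_nonneg fun v _ => by split_ifs <;> exact le_rfl
  refine h1.trans ?_
  rw [Finset.sum_comm]
  calc ∑ v ∈ W, ∑ e, (if v ∈ e then x e else 0) ≤ ∑ v ∈ W, (1 : ℝ) := by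
        refine Finset.sum_le_sum fun v _ => ?_
        rw [← Finset.sum_filter]
        exact hx.2.2 v
    _ = W.card := by simp

theorem bddAbove_frac : BddAbove {r | ∃ x, IsFracF G x ∧ ∑ e, x e = r} :=
  ⟨(Finset.univ : Finset V).card, by
    rintro r ⟨x, hx, rfl⟩
    exact hx.sum_le _ (fun u v _ => Or.inl (Finset.mem_univ u))⟩

theorem IsFracF.le_nufF {x : Sym2 V → ℝ} (hx : IsFracF G x) : ∑ e, x e ≤ nufF G :=
  le_csSup bddAbove_frac ⟨x, hx, rfl⟩

open Classical in
/-- degrees of the indicator of a matching -/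
theorem IsMatch.sum_le {M : Finset (Sym2 V)} (h : IsMatch G M) (v : V) :
    (∑ e with v ∈ e, if e ∈ M then (1:ℝ) else 0) ≤ 1 := by
  rw [← Finset.sum_filter, Finset.sum_const, nsmul_eq_mul, mul_one]
  have : (({e | v ∈ e} : Finset (Sym2 V)).filter (· ∈ M)).card ≤ 1 := by
    rw [Finset.card_le_one]
    intro e he f hf
    simp only [Finset.mem_filter, Finset.mem_univ, true_and] at he hf
    exact h.2 e he.2 f hf.2 v he.1 hf.1
  exact_mod_cast this

open Classical in
theorem IsMatch.isFracF {M : Finset (Sym2 V)} (h : IsMatch G M) :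
    IsFracF G (fun e => if e ∈ M then 1 else 0) := by
  refine ⟨fun e => by dsimp only; split_ifs <;> norm_num, fun e he => if_neg fun h' => he (h.1 e h'),
    fun v => h.sum_le v⟩

theorem nu_le_nufF : (nu G : ℝ) ≤ nufF G := by
  classical
  obtain ⟨M, hM, hc⟩ := exists_max (G := G)
  rw [← hc]
  refine le_trans (le_of_eq ?_) hM.isFracF.le_nufF
  rw [← Finset.sum_filter, Finset.sum_const, nsmul_eq_mul, mul_one]
  simp

/-- A matching and a vertex cover of the same size certify stability. -/
theorem stable_of_cover {M : Finset (Sym2 V)} (hM : IsMatch G M) (W : Finset V)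
    (hW : ∀ u v, G.Adj u v → u ∈ W ∨ v ∈ W) (hc : W.card ≤ M.card) : StableF G := by
  refine le_antisymm nu_le_nufF ?_
  refine csSup_le ⟨0, fun _ => 0, ⟨fun _ => le_rfl, fun _ _ => rfl, fun v => by simp⟩, by simp⟩ ?_
  rintro r ⟨x, hx, rfl⟩
  refine (hx.sum_le W hW).trans ?_
  exact_mod_cast hc.trans hM.card_le_nu

end basic

section induced

variable {V : Type*} [Fintype V] {G : SimpleGraph V}

open Classical in
/-- The certificate for stability used in the YES case: a vertex cover `W` of `G ∖ S` with private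
partners outside `W`. -/
theorem stableF_of_partner (S : Set V) (W : Finset V) (p : V → V)
    (hW : ∀ w ∈ W, w ∉ S ∧ p w ∉ S ∧ G.Adj w (p w) ∧ p w ∉ W)
    (inj : ∀ w ∈ W, ∀ w' ∈ W, p w = p w' → w = w')
    (cover : ∀ u v, u ∉ S → v ∉ S → G.Adj u v → u ∈ W ∨ v ∈ W) :
    StableF (G.induce Sᶜ) := by
  let f : W → Sym2 ↥(Sᶜ) := fun w =>
    s(⟨w.1, (hW w.1 w.2).1⟩, ⟨p w.1, (hW w.1 w.2).2.1⟩)
  have hf : Function.Injective f := by
    intro w w' h
    simp only [f, Sym2.eq_iff, Subtype.mk.injEq] at h
    rcases h with h | h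
    · exact Subtype.ext h.1
    · exfalso
      exact (hW w'.1 w'.2).2.2.2 (h.1 ▸ w.2)
  let M : Finset (Sym2 ↥(Sᶜ)) := Finset.univ.image f
  let W' : Finset ↥(Sᶜ) := Finset.univ.filter fun v => v.1 ∈ W
  have hM : IsMatch (G.induce Sᶜ) M := by
    constructor
    · intro e he
      simp only [M, Finset.mem_image, Finset.mem_univ, true_and] at he
      obtain ⟨w, rfl⟩ := he
      exact (hW w.1 w.2).2.2.1
    · intro e he e' he' v hv hv'
      simp only [M, Finset.mem_image, Finset.mem_univ, true_and] at he he'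
      obtain ⟨w, rfl⟩ := he
      obtain ⟨w', rfl⟩ := he'
      congr 1
      apply Subtype.ext
      simp only [f, Sym2.mem_iff] at hv hv'
      rcases hv with hv | hv <;> rcases hv' with hv' | hv'
      · have := hv.symm.trans hv'
        simpa using this
      · have := hv.symm.trans hv'
        simp only [Subtype.mk.injEq] at this
        exact absurd (this ▸ w.2) (hW w'.1 w'.2).2.2.2
      · have := hv.symm.trans hv'
        simp only [Subtype.mk.injEq] at this
        exact absurd (this ▸ w'.2) (hW w.1 w.2).2.2.2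
      · have := hv.symm.trans hv'
        simp only [Subtype.mk.injEq] at this
        exact inj _ w.2 _ w'.2 this
  refine stable_of_cover hM W' ?_ ?_
  · intro u v huv
    rcases cover u.1 v.1 u.2 v.2 huv with h | h
    · left; simpa [W'] using h
    · right; simpa [W'] using h
  · rw [Finset.card_image_of_injective _ hf, Finset.card_univ, Fintype.card_coe]
    have : W'.card = (W'.image Subtype.val).card :=
      (Finset.card_image_of_injective _ Subtype.val_injective).symm
    rw [this]
    refine Finset.card_le_card ?_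
    intro w hw
    simp only [Finset.mem_image, W', Finset.mem_filter, Finset.mem_univ, true_and] at hw
    obtain ⟨v, hv, rfl⟩ := hw
    exact hv

end induced

section triangle

variable {V : Type*} [Fintype V] {G : SimpleGraph V}

/-- `v` is not covered by `M` -/
def Exposed (M : Finset (Sym2 V)) (v : V) : Prop := ∀ e ∈ M, v ∉ e

open Classical in
theorem IsMatch.insert {M : Finset (Sym2 V)} (hM : IsMatch G M) {u v : V} (h : G.Adj u v)
    (hu : Exposed M u) (hv : Exposed M v) : IsMatch G (insert s(u, v) M) := by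
  constructor
  · intro e he
    rcases Finset.mem_insert.1 he with rfl | he
    · exact h
    · exact hM.1 e he
  · intro e he f hf w hwe hwf
    rcases Finset.mem_insert.1 he with he1 | he1 <;> rcases Finset.mem_insert.1 hf with hf1 | hf1
    · rw [he1, hf1]
    · exfalso
      subst he1
      rcases Sym2.mem_iff.1 hwe with h1 | h1
      · exact hu f hf1 (h1 ▸ hwf)
      · exact hv f hf1 (h1 ▸ hwf)
    · exfalso
      subst hf1
      rcases Sym2.mem_iff.1 hwf with h1 | h1
      · exact hu e he1 (h1 ▸ hwe)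
      · exact hv e he1 (h1 ▸ hwe)
    · exact hM.2 e he1 f hf1 w hwe hwf

open Classical in
theorem IsMatch.erase {M : Finset (Sym2 V)} (hM : IsMatch G M) (e : Sym2 V) :
    IsMatch G (M.erase e) :=
  ⟨fun f hf => hM.1 f (Finset.mem_of_mem_erase hf), fun f hf g hg v hvf hvg =>
    hM.2 f (Finset.mem_of_mem_erase hf) g (Finset.mem_of_mem_erase hg) v hvf hvg⟩

open Classical in
/-- A triangle `x y z` with `yz` in the matching and `x` exposed gains `1/2`. -/
theorem half_gain {M : Finset (Sym2 V)} (hM : IsMatch G M) {x y z : V} (hxy : G.Adj x y)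
    (hxz : G.Adj x z) (hyz : G.Adj y z) (hmem : s(y, z) ∈ M) (hx : Exposed M x) :
    (M.card : ℝ) + 1 / 2 ≤ nufF G := by
  have nxy := hxy.ne
  have nxz := hxz.ne
  have nyz := hyz.ne
  let N := M.erase s(y, z)
  have hN : IsMatch G N := hM.erase _
  have hNx : Exposed N x := fun e he => hx e (Finset.mem_of_mem_erase he)
  have hNy : Exposed N y := by
    intro e he hye
    exact (Finset.ne_of_mem_erase he) (hM.2 e (Finset.mem_of_mem_erase he) _ hmem y hye
      (Sym2.mem_mk_left y z))
  have hNz : Exposed N z := by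
    intro e he hze
    exact (Finset.ne_of_mem_erase he) (hM.2 e (Finset.mem_of_mem_erase he) _ hmem z hze
      (Sym2.mem_mk_right y z))
  let w : Sym2 V → ℝ := fun e => (if e ∈ N then 1 else 0) + ((if e = s(x, y) then 1/2 else 0) +
    ((if e = s(x, z) then 1/2 else 0) + (if e = s(y, z) then 1/2 else 0)))
  have hdeg : ∀ v, (∑ e with v ∈ e, w e) = (∑ e with v ∈ e, if e ∈ N then (1:ℝ) else 0) +
      ((if v ∈ s(x, y) then 1/2 else 0) + ((if v ∈ s(x, z) then 1/2 else 0) +
      (if v ∈ s(y, z) then 1/2 else 0))) := by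
    intro v
    simp only [w, Finset.sum_add_distrib, Finset.sum_ite_eq', Finset.mem_filter,
      Finset.mem_univ, true_and]
  have hfrac : IsFracF G w := by
    refine ⟨fun e => ?_, fun e he => ?_, fun v => ?_⟩
    · simp only [w]
      positivity
    · have h1 : e ∉ N := fun h => he (hN.1 e h)
      have h2 : e ≠ s(x, y) := fun h => he (h ▸ hxy)
      have h3 : e ≠ s(x, z) := fun h => he (h ▸ hxz)
      have h4 : e ≠ s(y, z) := fun h => he (h ▸ hyz)
      simp [w, h1, h2, h3, h4]
    · rw [hdeg]
      have hzero : ∀ v, Exposed N v → (∑ e with v ∈ e, if e ∈ N then (1:ℝ) else 0) = 0 := by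
        intro v hv
        refine Finset.sum_eq_zero fun e he => if_neg fun h => ?_
        exact hv e h (by simpa using he)
      by_cases h1 : v = x
      · subst h1
        rw [hzero _ hNx]
        simp [Sym2.mem_iff, nxy, nxz]
        norm_num
      by_cases h2 : v = y
      · subst h2
        rw [hzero _ hNy]
        simp [Sym2.mem_iff, nxy.symm, nyz]
        norm_num
      by_cases h3 : v = z
      · subst h3
        rw [hzero _ hNz]
        simp [Sym2.mem_iff, nxz.symm, nyz.symm]
        norm_num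
      · have := hN.sum_le v
        simp only [Sym2.mem_iff, h1, h2, h3, or_self, if_false, add_zero]
        exact this
  refine le_trans (le_of_eq ?_) hfrac.le_nufF
  have hc : (M.card : ℝ) = N.card + 1 := by
    have := Finset.card_erase_add_one hmem
    exact_mod_cast this.symm
  simp only [w, Finset.sum_add_distrib, Finset.sum_ite_eq', Finset.mem_univ, if_true]
  rw [← Finset.sum_filter, Finset.sum_const, nsmul_eq_mul, mul_one, hc]
  have : (Finset.univ.filter (· ∈ N)) = N := by ext; simp
  rw [this]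
  norm_num
  ring

open Classical in
/-- The certificate for instability used in the NO case. -/
theorem not_stableF_of_triangle {t₀ t₁ t₂ : V} (h01 : G.Adj t₀ t₁) (h02 : G.Adj t₀ t₂)
    (h12 : G.Adj t₁ t₂) (n1 : ∀ y, G.Adj t₁ y → y = t₀ ∨ y = t₂)
    (n2 : ∀ y, G.Adj t₂ y → y = t₀ ∨ y = t₁)
    (hex : ∀ M, IsMatch G M → ∀ c, G.Adj t₀ c → c ≠ t₁ → c ≠ t₂ →
      ∃ s, Exposed M s ∧ G.Adj c s ∧ s ≠ t₀) : ¬ StableF G := by
  intro hst
  have key : ∀ M, IsMatch G M → M.card = nu G → ∀ x y z, G.Adj x y → G.Adj x z → G.Adj y z →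
      s(y, z) ∈ M → Exposed M x → False := by
    intro M hM hc x y z hxy hxz hyz hmem hx
    have := half_gain hM hxy hxz hyz hmem hx
    rw [StableF] at hst
    rw [← hst, hc] at this
    linarith
  -- a maximum matching cannot leave `t₀` exposed
  have key0 : ∀ M, IsMatch G M → M.card = nu G → ¬ Exposed M t₀ := by
    intro M hM hc h0
    by_cases h1 : Exposed M t₁
    · have h2 := hM.insert h01 h0 h1
      have h3 := h2.card_le_nu
      have h4 : s(t₀, t₁) ∉ M := fun h => h0 _ h (Sym2.mem_mk_left _ _)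
      rw [Finset.card_insert_of_notMem h4, hc] at h3
      omega
    · simp only [Exposed, not_forall, not_not] at h1
      obtain ⟨e, he, h1e⟩ := h1
      obtain ⟨y, rfl⟩ := Sym2.mem_iff_exists.1 h1e
      rcases n1 y (hM.1 _ he) with rfl | rfl
      · exact h0 _ he (Sym2.mem_mk_right _ _)
      · exact key M hM hc t₀ t₁ y h01 h02 h12 he h0
  obtain ⟨M, hM, hc⟩ := exists_max (G := G)
  have h0 := key0 M hM hc
  simp only [Exposed, not_forall, not_not] at h0
  obtain ⟨e, he, h0e⟩ := h0
  obtain ⟨c, rfl⟩ := Sym2.mem_iff_exists.1 h0e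
  have hadj : G.Adj t₀ c := hM.1 _ he
  by_cases hc1 : c = t₁
  · subst hc1
    refine key M hM hc t₂ t₀ c h02.symm h12.symm h01 he ?_
    intro f hf h2f
    obtain ⟨y, rfl⟩ := Sym2.mem_iff_exists.1 h2f
    rcases n2 y (hM.1 _ hf) with rfl | rfl
    · have := hM.2 _ he _ hf y (Sym2.mem_mk_left _ _) (Sym2.mem_mk_right _ _)
      have h3 : t₂ ∈ s(y, c) := this ▸ Sym2.mem_mk_left _ _
      rcases Sym2.mem_iff.1 h3 with h | h
      · exact h02.ne h.symm
      · exact h12.ne h.symm
    · have := hM.2 _ he _ hf y (Sym2.mem_mk_right _ _) (Sym2.mem_mk_right _ _)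
      have h3 : t₂ ∈ s(t₀, y) := this ▸ Sym2.mem_mk_left _ _
      rcases Sym2.mem_iff.1 h3 with h | h
      · exact h02.ne h.symm
      · exact h12.ne h.symm
  by_cases hc2 : c = t₂
  · subst hc2
    refine key M hM hc t₁ t₀ c h01.symm h12 h02 he ?_
    intro f hf h1f
    obtain ⟨y, rfl⟩ := Sym2.mem_iff_exists.1 h1f
    rcases n1 y (hM.1 _ hf) with rfl | rfl
    · have := hM.2 _ he _ hf y (Sym2.mem_mk_left _ _) (Sym2.mem_mk_right _ _)
      have h3 : t₁ ∈ s(y, c) := this ▸ Sym2.mem_mk_left _ _
      rcases Sym2.mem_iff.1 h3 with h | h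
      · exact h01.ne h.symm
      · exact h12.ne h
    · have := hM.2 _ he _ hf y (Sym2.mem_mk_right _ _) (Sym2.mem_mk_right _ _)
      have h3 : t₁ ∈ s(t₀, y) := this ▸ Sym2.mem_mk_left _ _
      rcases Sym2.mem_iff.1 h3 with h | h
      · exact h01.ne h.symm
      · exact h12.ne h
  obtain ⟨s, hs, hcs, hs0⟩ := hex M hM c hadj hc1 hc2
  -- swap the partner of `c`
  let N := M.erase s(t₀, c)
  have hN : IsMatch G N := hM.erase _
  have hNc : Exposed N c := by
    intro f hf hcf
    exact (Finset.ne_of_mem_erase hf) (hM.2 f (Finset.mem_of_mem_erase hf) _ he c hcf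
      (Sym2.mem_mk_right _ _))
  have hN0 : Exposed N t₀ := by
    intro f hf hcf
    exact (Finset.ne_of_mem_erase hf) (hM.2 f (Finset.mem_of_mem_erase hf) _ he t₀ hcf
      (Sym2.mem_mk_left _ _))
  have hNs : Exposed N s := fun f hf => hs f (Finset.mem_of_mem_erase hf)
  have hM' := hN.insert hcs hNc hNs
  have hnot : s(c, s) ∉ N := fun h => hNc _ h (Sym2.mem_mk_left _ _)
  have hcard : (insert s(c, s) N).card = nu G := by
    rw [Finset.card_insert_of_notMem hnot, ← hc]
    exact Finset.card_erase_add_one he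
  refine key0 _ hM' hcard ?_
  intro f hf h0f
  rcases Finset.mem_insert.1 hf with rfl | hf
  · rcases Sym2.mem_iff.1 h0f with h | h
    · exact hadj.ne h
    · exact hs0 h.symm
  · exact hN0 f hf h0f

end triangle

section iso

variable {V V' : Type*} [Fintype V] [Fintype V'] {G : SimpleGraph V} {G' : SimpleGraph V'}

open Classical in
theorem nu_le_of_iso (f : G ≃g G') : nu G ≤ nu G' := by
  obtain ⟨M, hM, hc⟩ := exists_max (G := G)
  have hinj : Function.Injective (Sym2.map f) := Sym2.map.injective f.injective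
  rw [← hc, ← Finset.card_image_of_injective M hinj]
  refine IsMatch.card_le_nu ⟨?_, ?_⟩
  · intro e he
    obtain ⟨e, he', rfl⟩ := Finset.mem_image.1 he
    have := hM.1 e he'
    induction e using Sym2.ind with
    | _ a b => exact f.map_rel_iff.2 this
  · intro e he e' he' v hv hv'
    obtain ⟨e, h1, rfl⟩ := Finset.mem_image.1 he
    obtain ⟨e', h2, rfl⟩ := Finset.mem_image.1 he'
    obtain ⟨a, ha, rfl⟩ := Sym2.mem_map.1 hv
    obtain ⟨b, hb, hab⟩ := Sym2.mem_map.1 hv'
    have := f.injective hab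
    subst this
    rw [hM.2 e h1 e' h2 b ha hb]

open Classical in
theorem nufF_le_of_iso (f : G ≃g G') : nufF G ≤ nufF G' := by
  refine csSup_le ⟨0, fun _ => 0, ⟨fun _ => le_rfl, fun _ _ => rfl, fun v => by simp⟩, by simp⟩ ?_
  rintro r ⟨x, hx, rfl⟩
  let F : Sym2 V ≃ Sym2 V' :=
    { toFun := Sym2.map f
      invFun := Sym2.map f.symm
      left_inv := fun e => by
        induction e using Sym2.ind with
        | _ a b => simp
      right_inv := fun e => by
        induction e using Sym2.ind with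
        | _ a b => simp }
  have hF : ∀ e, F.symm e = Sym2.map f.symm e := fun e => rfl
  have hfrac : IsFracF G' (fun e => x (F.symm e)) := by
    refine ⟨fun e => hx.1 _, fun e he => hx.2.1 _ ?_, fun v => ?_⟩
    · intro h
      apply he
      rw [hF] at h
      induction e using Sym2.ind with
      | _ a b => exact f.symm.map_rel_iff.1 h
    · have := hx.2.2 (f.symm v)
      refine le_trans (le_of_eq ?_) this
      refine Finset.sum_equiv F.symm ?_ (fun _ _ => rfl)
      intro e
      simp only [Finset.mem_filter, Finset.mem_univ, true_and, hF, Sym2.mem_map]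
      constructor
      · intro h
        exact ⟨v, h, rfl⟩
      · rintro ⟨a, ha, hav⟩
        rwa [f.symm.injective hav] at ha
  refine le_trans (le_of_eq ?_) hfrac.le_nufF
  exact (Equiv.sum_comp F.symm x).symm

theorem StableF.of_iso (f : G ≃g G') (h : StableF G) : StableF G' := by
  have h1 : nu G = nu G' := le_antisymm (nu_le_of_iso f) (nu_le_of_iso f.symm)
  have h2 : nufF G = nufF G' := le_antisymm (nufF_le_of_iso f) (nufF_le_of_iso f.symm)
  rw [StableF, ← h1, ← h2]
  exact h

end iso

theorem stable_of_partner {V : Type*} [Finite V] {G : SimpleGraph V} (S : Set V) (W : Finset V)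
    (p : V → V) (hW : ∀ w ∈ W, w ∉ S ∧ p w ∉ S ∧ G.Adj w (p w) ∧ p w ∉ W)
    (inj : ∀ w ∈ W, ∀ w' ∈ W, p w = p w' → w = w')
    (cover : ∀ u v, u ∉ S → v ∉ S → G.Adj u v → u ∈ W ∨ v ∈ W) :
    Stable (G.induce Sᶜ) := by
  classical
  have := Fintype.ofFinite V
  rw [stable_iff]
  exact stableF_of_partner S W p hW inj cover

theorem not_stable_of_triangle {V : Type*} [Finite V] {G : SimpleGraph V} {t₀ t₁ t₂ : V}
    (h01 : G.Adj t₀ t₁) (h02 : G.Adj t₀ t₂)
    (h12 : G.Adj t₁ t₂) (n1 : ∀ y, G.Adj t₁ y → y = t₀ ∨ y = t₂)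
    (n2 : ∀ y, G.Adj t₂ y → y = t₀ ∨ y = t₁)
    (hex : ∀ M, IsMatch G M → ∀ c, G.Adj t₀ c → c ≠ t₁ → c ≠ t₂ →
      ∃ s, Exposed M s ∧ G.Adj c s ∧ s ≠ t₀) : ¬ Stable G := by
  have := Fintype.ofFinite V
  rw [stable_iff]
  exact not_stableF_of_triangle h01 h02 h12 n1 n2 hex

theorem Stable.of_iso {V V' : Type*} [Finite V] [Finite V'] {G : SimpleGraph V}
    {G' : SimpleGraph V'} (f : G ≃g G') (h : Stable G) : Stable G' := by
  have := Fintype.ofFinite V
  have := Fintype.ofFinite V'
  rw [stable_iff] at h ⊢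
  exact StableF.of_iso f h

end Pool.Agent.NPC.H604
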